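import Pool.Agent.Lib.MP_ca7d12_nt.Defs

set_option autoImplicit false

namespace Pool.Agent.MP_ca7d12_nt

open NumberField
open scoped Pointwise

/-- Avoidance: a subgroup `M` of an ideal `I` that generates `I` has an element that is outside
`Q ^ h * I` for all primes `Q` above `P`; the exponent `h` depends only on `P`. -/
theorem exists_avoid (K : Type*) [Field K] [NumberField K] (P : ℤ) (hP : P ≠ 0) :
    ∃ h : ℕ, ∀ (I : Ideal (𝓞 K)), I ≠ ⊥ → ∀ M : AddSubgroup (𝓞 K),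
      Ideal.span (M : Set (𝓞 K)) = I →
      ∃ g ∈ M, ∀ Q : Ideal (𝓞 K), Q.IsPrime → (P : 𝓞 K) ∈ Q → g ∉ Q ^ h * I := by
  classical
  have hP0 : (P : 𝓞 K) ≠ 0 := by exact_mod_cast hP
  have hbot : Ideal.span {(P : 𝓞 K)} ≠ ⊥ := by
    rw [Ne, Ideal.span_singleton_eq_bot]
    exact hP0
  set s : Finset (Ideal (𝓞 K)) :=
    (UniqueFactorizationMonoid.normalizedFactors (Ideal.span {(P : 𝓞 K)})).toFinset with hs
  have hmem : ∀ Q : Ideal (𝓞 K), Q.IsPrime → (P : 𝓞 K) ∈ Q → Q ∈ s := by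
    intro Q hQ hPQ
    rw [hs, Multiset.mem_toFinset, Ideal.mem_normalizedFactors_iff hbot]
    exact ⟨hQ, (Ideal.span_singleton_le_iff_mem Q).2 hPQ⟩
  set d := Module.finrank ℤ (𝓞 K) with hd
  refine ⟨s.card ^ d, fun I hI M hM => ?_⟩
  by_contra hcon
  push Not at hcon
  -- the covering
  set H : Ideal (𝓞 K) → AddSubgroup M := fun Q =>
    (Q ^ (s.card ^ d) * I).toAddSubgroup.addSubgroupOf M with hH
  have hcover : ⋃ Q ∈ s, (0 : M) +ᵥ (H Q : Set M) = Set.univ := by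
    rw [Set.eq_univ_iff_forall]
    intro g
    obtain ⟨Q, hQ, hPQ, hgQ⟩ := hcon g g.2
    simp only [zero_vadd, Set.mem_iUnion]
    exact ⟨Q, hmem Q hQ hPQ, hgQ⟩
  obtain ⟨Q, hQs, hfin, hidx⟩ := AddSubgroup.exists_index_le_card_of_leftCoset_cover hcover
  rw [hs, Multiset.mem_toFinset, Ideal.mem_normalizedFactors_iff hbot] at hQs
  obtain ⟨hQ, hle⟩ := hQs
  set e := (H Q).index with he
  have he0 : e ≠ 0 := hfin.index_ne_zero
  have hmul : ∀ g ∈ M, (e : 𝓞 K) * g ∈ Q ^ (s.card ^ d) * I := by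
    intro g hg
    have h1 : e • (⟨g, hg⟩ : M) ∈ H Q := AddSubgroup.nsmul_index_mem (H Q) ⟨g, hg⟩
    have h2 : ((e • (⟨g, hg⟩ : M) : M) : 𝓞 K) ∈ Q ^ (s.card ^ d) * I := h1
    rwa [AddSubgroup.coe_nsmul, nsmul_eq_mul] at h2
  have hdvd : Q ^ (s.card ^ d) ∣ Ideal.span {(e : 𝓞 K)} := by
    have h1 : Q ^ (s.card ^ d) * I ∣ Ideal.span {(e : 𝓞 K)} * I := by
      rw [Ideal.dvd_iff_le, Ideal.span_singleton_mul_le_iff]
      intro x hx
      rw [← hM] at hx
      induction hx using Submodule.span_induction with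
      | mem x hx => exact hmul x hx
      | zero => rw [mul_zero]; exact Submodule.zero_mem _
      | add x y _ _ hx hy => rw [mul_add]; exact Submodule.add_mem _ hx hy
      | smul a x _ hx =>
        rw [smul_eq_mul, mul_left_comm]
        exact Ideal.mul_mem_left _ _ hx
    exact (mul_dvd_mul_iff_right (by rwa [Ne, Ideal.zero_eq_bot])).1 h1
  have hnorm : Ideal.absNorm (Ideal.span {(e : 𝓞 K)}) = e ^ d := by
    rw [Ideal.absNorm_span_singleton]
    have h1 : Algebra.norm ℤ (e : 𝓞 K) = (e : ℤ) ^ d := by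
      have h2 := Algebra.norm_algebraMap (R := ℤ) (S := 𝓞 K) (e : ℤ)
      rw [hd, ← h2]
      congr 1
      simp
    rw [h1]
    exact_mod_cast Int.natAbs_natCast (e ^ d)
  have h2 : Ideal.absNorm Q ^ (s.card ^ d) ∣ e ^ d := by
    rw [← hnorm, ← map_pow]
    exact Ideal.absNorm_dvd_absNorm_of_le (Ideal.dvd_iff_le.1 hdvd)
  have hQ0 : Ideal.absNorm Q ≠ 0 := by
    intro h0
    rw [Ideal.absNorm_eq_zero_iff] at h0
    rw [h0] at hle
    exact hbot (le_bot_iff.1 hle)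
  have hQ1 : Ideal.absNorm Q ≠ 1 := by
    intro h1
    rw [Ideal.absNorm_eq_one_iff] at h1
    exact hQ.ne_top h1
  have h3 : 2 ^ (s.card ^ d) ≤ e ^ d :=
    (Nat.pow_le_pow_left (by omega) _).trans (Nat.le_of_dvd (Nat.pos_of_ne_zero (pow_ne_zero d he0)) h2)
  have h4 : e ^ d ≤ s.card ^ d := Nat.pow_le_pow_left hidx d
  have h5 : s.card ^ d < 2 ^ (s.card ^ d) := Nat.lt_two_pow_self
  omega

end Pool.Agent.MP_ca7d12_nt
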