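import Pool.Agent.Lib.MP_ca7d12_nt.Defs

set_option autoImplicit false

namespace Pool.Agent.MP_ca7d12_nt

open NumberField

/-- Bounded representatives of the classes modulo a nonzero ideal. -/
theorem exists_bounded_reps (K : Type*) [Field K] [NumberField K] (T : Ideal (𝓞 K)) (hT : T ≠ ⊥) :
    ∃ C : ℤ, ∀ g : 𝓞 K, ∃ x : 𝓞 K, x ≠ 0 ∧ x - g ∈ T ∧ |Algebra.norm ℤ x| ≤ C := by
  classical
  obtain ⟨t, htT, ht0⟩ := Submodule.exists_mem_ne_zero_of_ne_bot hT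
  have hfin : Finite (𝓞 K ⧸ T) := Ideal.finiteQuotientOfFreeOfNeBot T hT
  have hrep : ∀ c : 𝓞 K ⧸ T, ∃ x : 𝓞 K, x ≠ 0 ∧ Ideal.Quotient.mk T x = c := by
    intro c
    obtain ⟨g, rfl⟩ := Ideal.Quotient.mk_surjective c
    by_cases hg : g = 0
    · refine ⟨t, ht0, ?_⟩
      rw [hg, map_zero]
      exact Ideal.Quotient.eq_zero_iff_mem.2 htT
    · exact ⟨g, hg, rfl⟩
  choose f hf0 hf using hrep
  cases nonempty_fintype (𝓞 K ⧸ T)
  refine ⟨∑ c : 𝓞 K ⧸ T, |Algebra.norm ℤ (f c)|, fun g => ?_⟩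
  refine ⟨f (Ideal.Quotient.mk T g), hf0 _, Ideal.Quotient.eq.1 (hf _), ?_⟩
  exact Finset.single_le_sum (f := fun c : 𝓞 K ⧸ T => |Algebra.norm ℤ (f c)|)
    (fun c _ => abs_nonneg _) (Finset.mem_univ _)

end Pool.Agent.MP_ca7d12_nt
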