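import Pool.Agent.Lib.MP_ca7d12_nt.UnitsA

set_option autoImplicit false

namespace Pool.Agent.MP_ca7d12_nt

namespace CycAlg

variable {R : Type*} [CommRing R]

/-- `v` is congruent to an integer modulo `p`. -/
def Sc (p : ℕ) (v : R) : Prop := ∃ (i : ℤ) (w : R), v = (i : R) + (p : R) * w

theorem int_dvd (hR : ∀ q : ℤ, IsUnit (q : R) → IsUnit q) (p : ℕ) (hp : p.Prime) (i : ℤ) (w : R)
    (h : (i : R) = (p : R) * w) : (p : ℤ) ∣ i := by
  by_contra hn
  have hp' : Prime (p : ℤ) := Nat.prime_iff_prime_int.mp hp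
  have hc : IsCoprime (p : ℤ) i := (Prime.coprime_iff_not_dvd hp').mpr hn
  obtain ⟨x, y, hxy⟩ := hc
  have h1 : (x : R) * (p : R) + (y : R) * (i : R) = 1 := by
    have := congrArg (fun z : ℤ => (z : R)) hxy
    simpa using this
  have hu : IsUnit (((p : ℕ) : ℤ) : R) := by
    refine IsUnit.of_mul_eq_one ((x : R) + (y : R) * w) ?_
    push_cast
    linear_combination h1 - (y : R) * h
  exact hp'.not_isUnit (hR _ hu)

theorem Sc.of_mul {p : ℕ} {c : ℤ} {v : R} (hc : IsCoprime c (p : ℤ)) (h : Sc p ((c : R) * v)) :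
    Sc p v := by
  obtain ⟨i, w, h⟩ := h
  obtain ⟨x, y, hxy⟩ := hc
  have h1 : (x : R) * (c : R) + (y : R) * (p : R) = 1 := by
    have := congrArg (fun z : ℤ => (z : R)) hxy
    simpa using this
  refine ⟨x * i, (x : R) * w + (y : R) * v, ?_⟩
  push_cast
  linear_combination (-v) * h1 + (x : R) * h

/-- `a² - ab + b² ≡ 0 (mod p)`, `p ≡ 2 (mod 3)` forces `a ≡ b ≡ 0`. -/
theorem dvd_of_form {p : ℕ} (hp : p.Prime) (hp3 : p % 3 = 2) (a b : ℤ)
    (h : (p : ℤ) ∣ a ^ 2 - a * b + b ^ 2) : (p : ℤ) ∣ a ∧ (p : ℤ) ∣ b := by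
  have : Fact p.Prime := ⟨hp⟩
  have h0 : ((a : ZMod p)) ^ 2 - a * b + (b : ZMod p) ^ 2 = 0 := by
    have := (ZMod.intCast_zmod_eq_zero_iff_dvd _ p).mpr h
    push_cast at this
    exact this
  have hb : ((b : ZMod p)) = 0 := by
    by_contra hb
    set x : ZMod p := -((a : ZMod p) / b) with hx
    have h1 : x ^ 2 + x + 1 = 0 := by
      rw [hx]
      field_simp
      linear_combination h0
    have h3 : x ^ 3 = 1 := by linear_combination (x - 1) * h1
    have hx0 : x ≠ 0 := by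
      intro h; rw [h] at h1; simp at h1
    have h4 : x ^ (p - 1) = 1 := ZMod.pow_card_sub_one_eq_one hx0
    have h5 : x ^ p = x := ZMod.pow_card x
    -- p = 3 k + 2
    have h6 : x ^ 2 = x := by
      have hpk : p = 3 * (p / 3) + 2 := by omega
      calc x ^ 2 = (x ^ 3) ^ (p / 3) * x ^ 2 := by rw [h3, one_pow, one_mul]
        _ = x ^ (3 * (p / 3) + 2) := by rw [← pow_mul, ← pow_add]
        _ = x ^ p := by rw [← hpk]
        _ = x := h5
    have h7 : x = 1 := by
      have : x * (x - 1) = 0 := by linear_combination h6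
      rcases mul_eq_zero.mp this with h | h
      · exact absurd h hx0
      · linear_combination h
    have h8 : (3 : ZMod p) = 0 := by rw [h7] at h1; linear_combination h1
    have h9 : p ∣ 3 := by
      have := (ZMod.natCast_eq_zero_iff 3 p).mp (by exact_mod_cast h8)
      exact this
    have : p = 3 := (Nat.prime_dvd_prime_iff_eq hp Nat.prime_three).mp h9
    omega
  have ha : ((a : ZMod p)) = 0 := by
    rw [hb] at h0
    simpa using h0
  exact ⟨(ZMod.intCast_zmod_eq_zero_iff_dvd _ p).mp ha, (ZMod.intCast_zmod_eq_zero_iff_dvd _ p).mp hb⟩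

theorem coprime_of_not_dvd {p : ℕ} (hp : p.Prime) {n : ℤ} (h : ¬ (p : ℤ) ∣ n) :
    IsCoprime n (p : ℤ) :=
  ((Prime.coprime_iff_not_dvd (Nat.prime_iff_prime_int.mp hp)).mpr h).symm

theorem indep (hR : ∀ q : ℤ, IsUnit (q : R) → IsUnit q) (τ : R ≃+* R)
    (hτ : ∀ x, τ (τ (τ x)) = x) (htr : ∀ x : R, ∃ t : ℤ, x + τ x + τ (τ x) = (t : R))
    (p : ℕ) (hp : p.Prime) (hp3 : p % 3 ≠ 1) (v : R) (hv : ¬ Sc p v)
    (hv3 : p = 3 → ¬ Sc 3 (τ v - v))
    (i a b : ℤ) (w : R) (h : (i : R) + (a : R) * v + (b : R) * τ v = (p : R) * w) :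
    (p : ℤ) ∣ i ∧ (p : ℤ) ∣ a ∧ (p : ℤ) ∣ b := by
  have hab : (p : ℤ) ∣ a ∧ (p : ℤ) ∣ b := by
    obtain ⟨t, ht⟩ := htr v
    have hN : (p : ℤ) ∣ a ^ 2 - a * b + b ^ 2 := by
      by_contra hN
      apply hv
      refine Sc.of_mul (coprime_of_not_dvd hp hN) ?_
      have h2 : (i : R) + (a : R) * τ (τ v) + (b : R) * v = (p : R) * τ (τ w) := by
        have := congrArg (fun x => τ (τ x)) h
        simp only [map_add, map_mul, map_intCast, map_natCast, hτ] at this
        exact this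
      refine ⟨-(i * (a + b)) - a * b * t, (a : R) * w + (b : R) * τ (τ w), ?_⟩
      push_cast
      linear_combination (a : R) * h + (b : R) * h2 - (a : R) * (b : R) * ht
    rcases Nat.lt_or_ge p 3 with hlt | hge
    · have hp2 : p = 2 := by
        have := hp.two_le
        omega
      exact dvd_of_form hp (by omega) a b hN
    · by_cases h3 : p = 3
      · subst h3
        have h4 : (3 : ℤ) ∣ a + b := by
          have h5 : (3 : ℤ) ∣ (a + b) ^ 2 := by
            have : (a + b) ^ 2 = (a ^ 2 - a * b + b ^ 2) + 3 * (a * b) := by ring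
            rw [this]
            exact dvd_add (by exact_mod_cast hN) (Dvd.intro _ rfl)
          exact Int.Prime.dvd_pow' (n := a + b) (k := 2) Nat.prime_three (by exact_mod_cast h5)
        obtain ⟨e, he⟩ := h4
        have hb : (3 : ℤ) ∣ b := by
          by_contra hb
          apply hv3 rfl
          refine Sc.of_mul (c := b) (coprime_of_not_dvd Nat.prime_three (by exact_mod_cast hb)) ?_
          have hae : (a : R) = 3 * (e : R) - (b : R) := by
            have : a = 3 * e - b := by linarith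
            rw [this]; push_cast; ring
          refine ⟨-i, w - (e : R) * v, ?_⟩
          rw [hae] at h
          push_cast at h ⊢
          linear_combination h
        refine ⟨?_, by exact_mod_cast hb⟩
        have : (3 : ℤ) ∣ a := by omega
        exact_mod_cast this
      · have : p % 3 ≠ 0 := by
          intro h0
          have := (Nat.prime_dvd_prime_iff_eq Nat.prime_three hp).mp (Nat.dvd_of_mod_eq_zero h0)
          omega
        exact dvd_of_form hp (by omega) a b hN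
  refine ⟨?_, hab⟩
  obtain ⟨⟨a', ha'⟩, ⟨b', hb'⟩⟩ := hab
  refine int_dvd hR p hp i (w - (a' : R) * v - (b' : R) * τ v) ?_
  have h1 : (a : R) = (p : R) * (a' : R) := by rw [ha']; push_cast; ring
  have h2 : (b : R) = (p : R) * (b' : R) := by rw [hb']; push_cast; ring
  rw [h1, h2] at h
  linear_combination h

/-- From a unit `c + D v` with `v` primitive modulo the primes of `S` to one which in addition has
`τ v - v` not congruent to an integer modulo `3` if `3 ∈ S`. -/
theorem improve [IsDomain R] [CharZero R] (hR : ∀ q : ℤ, IsUnit (q : R) → IsUnit q) (τ : R ≃+* R)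
    (hτ : ∀ x, τ (τ (τ x)) = x) (htr : ∀ x : R, ∃ t : ℤ, x + τ x + τ (τ x) = (t : R))
    (S : Finset ℕ) (hS : ∀ p ∈ S, p.Prime ∧ p % 3 ≠ 1)
    (P : ℤ) (hP0 : P ≠ 0) (hSP : ∀ p ∈ S, (p : ℤ) ∣ P) (D : ℤ) (hD : D ≠ 0) (hPD : P ^ 2 ∣ D)
    (η : Rˣ) (c : ℤ) (v : R) (h : (η : R) = (c : R) + (D : R) * v)
    (hv : ∀ p ∈ S, ¬ Sc p v) :
    ∃ (η' : Rˣ) (c' D' : ℤ) (v' : R), D' ≠ 0 ∧ P ^ 2 ∣ D' ∧ (η' : R) = (c' : R) + (D' : R) * v' ∧
      (∀ p ∈ S, ¬ Sc p v') ∧ (3 ∈ S → ¬ Sc 3 (τ v' - v')) := by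
  by_cases hcase : 3 ∈ S → ¬ Sc 3 (τ v - v)
  · exact ⟨η, c, D, v, hD, hPD, h, hv, hcase⟩
  push Not at hcase
  obtain ⟨h3S, i, w₀, hw₀⟩ := hcase
  have hcD : IsCoprime c D := UnitsA.coprime_of_unit hR c D (η : R) v η.isUnit ⟨1, by rw [h]; ring⟩
  obtain ⟨cb, e, hce⟩ := hcD
  have hce' : (cb : R) * (c : R) + (e : R) * (D : R) = 1 := by
    have := congrArg (fun z : ℤ => (z : R)) hce
    push_cast at this
    exact this
  have h3P : (3 : ℤ) ∣ P := by exact_mod_cast hSP 3 h3S
  obtain ⟨D3, hD3⟩ : (3 : ℤ) ∣ D := (h3P.trans (dvd_pow_self P two_ne_zero)).trans hPD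
  have hηη : (η : R) * ((η⁻¹ : Rˣ) : R) = 1 := Units.mul_inv η
  obtain ⟨t, ht⟩ := htr v
  -- key identity for `w₀`: `3 (τ w₀ - w₀) = t - 3 τ v`
  have hw1 : τ (τ v) - τ v = (i : R) + 3 * τ w₀ := by
    have := congrArg (fun x => τ x) hw₀
    simp only [map_sub, map_add, map_mul, map_intCast, map_natCast] at this
    exact_mod_cast this
  have hw2 : τ v - v = (i : R) + 3 * w₀ := by exact_mod_cast hw₀
  have hkey : 3 * (τ w₀ - w₀) = (t : R) - 3 * τ v := by linear_combination ht - hw1 + hw2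
  have h3R : (3 : R) ≠ 0 := by
    have := (Nat.cast_ne_zero (R := R)).mpr (show (3 : ℕ) ≠ 0 by norm_num)
    exact_mod_cast this
  -- no integer class for `τ w₀ - w₀` modulo `3`
  have hw3 : ¬ Sc 3 (τ w₀ - w₀) := by
    rintro ⟨j, w', hj⟩
    push_cast at hj
    have h1 : (t : R) = ((3 : ℕ) : R) * ((j : R) + 3 * w' + τ v) := by
      push_cast
      linear_combination 3 * hj - hkey
    obtain ⟨t', ht'⟩ := int_dvd hR 3 Nat.prime_three t _ h1
    have ht2 : (t : R) = 3 * (t' : R) := by rw [ht']; push_cast; ring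
    have h2 : τ v = (t' : R) - (j : R) - 3 * w' := by
      apply mul_left_cancel₀ h3R
      rw [ht2] at hkey
      linear_combination hkey - 3 * hj
    have h3 : v = (t' : R) - (j : R) - 3 * τ (τ w') := by
      have := congrArg (fun x => τ (τ x)) h2
      simp only [map_sub, map_mul, map_intCast, hτ] at this
      have h33 : τ (3 : R) = 3 := by
        have := map_ofNat τ 3
        exact_mod_cast this
      simpa [h33] using this
    exact hv 3 h3S ⟨t' - j, -τ (τ w'), by push_cast; linear_combination h3⟩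
  set y : R := ((e : R) - (cb : R) * v) * ((η⁻¹ : Rˣ) : R) with hy
  have hinv : ((η⁻¹ : Rˣ) : R) = (cb : R) + (D : R) * y := by
    have h1 : ((cb : R) * (η : R) + (D : R) * ((e : R) - (cb : R) * v)) = 1 := by
      rw [h]; linear_combination hce'
    calc ((η⁻¹ : Rˣ) : R) = ((cb : R) * (η : R) + (D : R) * ((e : R) - (cb : R) * v)) *
          ((η⁻¹ : Rˣ) : R) := by rw [h1, one_mul]
      _ = (cb : R) * ((η : R) * ((η⁻¹ : Rˣ) : R)) + (D : R) * y := by rw [hy]; ring
      _ = (cb : R) + (D : R) * y := by rw [hηη, mul_one]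
  have hcbS : ∀ p ∈ S, IsCoprime cb (p : ℤ) := by
    intro p hp
    have h1 : IsCoprime cb D := ⟨c, e, by linarith⟩
    exact h1.of_isCoprime_of_dvd_right (((hSP p hp).trans (dvd_pow_self P two_ne_zero)).trans hPD)
  have hD3S : ∀ p ∈ S, (p : ℤ) ∣ D3 := by
    intro p hp
    have hpp := (hS p hp).1
    by_cases hp3 : p = 3
    · subst hp3
      have h9 : (3 : ℤ) * 3 ∣ D := by
        have : (3 : ℤ) ^ 2 ∣ P ^ 2 := pow_dvd_pow_of_dvd h3P 2
        have h9' := this.trans hPD
        rwa [pow_two] at h9'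
      rw [hD3] at h9
      exact_mod_cast (mul_dvd_mul_iff_left (three_ne_zero : (3 : ℤ) ≠ 0)).mp h9
    · have h1 : (p : ℤ) ∣ 3 * D3 := by
        rw [← hD3]
        exact ((hSP p hp).trans (dvd_pow_self P two_ne_zero)).trans hPD
      rcases (Nat.prime_iff_prime_int.mp hpp).dvd_or_dvd h1 with h2 | h2
      · exfalso
        have : p ∣ 3 := by exact_mod_cast h2
        exact hp3 ((Nat.prime_dvd_prime_iff_eq hpp Nat.prime_three).mp this)
      · exact h2
  set v' : R := (cb : R) * w₀ + (D3 : R) * (y * ((i : R) + 3 * w₀)) with hv'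
  -- classes of `v'`
  have hSc : ∀ p ∈ S, Sc p v' → Sc p w₀ := by
    rintro p hp ⟨j, w', hj⟩
    obtain ⟨d, hd⟩ := hD3S p hp
    refine Sc.of_mul (hcbS p hp) ⟨j, w' - (d : R) * (y * ((i : R) + 3 * w₀)), ?_⟩
    have hd' : (D3 : R) = (p : R) * (d : R) := by rw [hd]; push_cast; ring
    rw [hv', hd'] at hj
    linear_combination hj
  refine ⟨Units.map (τ : R →* R) η * η⁻¹, 1 + D * i * cb, 3 * D, v', ?_, ?_, ?_, ?_, ?_⟩
  · exact mul_ne_zero (by norm_num) hD
  · exact hPD.mul_left 3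
  · have h1 : ((Units.map (τ : R →* R) η : Rˣ) : R) = (c : R) + (D : R) * τ v := by
      rw [Units.coe_map]
      change τ (η : R) = _
      rw [h]
      simp
    have h2 : (c : R) + (D : R) * τ v = (η : R) + (D : R) * ((i : R) + 3 * w₀) := by
      rw [h]; linear_combination (D : R) * hw2
    rw [Units.val_mul, h1, h2, add_mul, hηη]
    have h3 : (D : R) * ((i : R) + 3 * w₀) * ((η⁻¹ : Rˣ) : R) =
        (D : R) * ((i : R) + 3 * w₀) * ((cb : R) + (D : R) * y) := by rw [← hinv]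
    rw [h3, hv']
    have hD3' : (D : R) = 3 * (D3 : R) := by rw [hD3]; push_cast; ring
    push_cast
    linear_combination (D : R) * y * ((i : R) + 3 * w₀) * hD3'
  · intro p hp hSc'
    have h1 := hSc p hp hSc'
    by_cases hp3 : p = 3
    · subst hp3
      obtain ⟨j, w', hj⟩ := h1
      apply hw3
      refine ⟨0, τ w' - w', ?_⟩
      rw [hj]
      simp only [map_add, map_mul, map_intCast, map_natCast]
      push_cast
      ring
    · obtain ⟨j, w', hj⟩ := h1
      have h2 : ((-(i + 3 * j) : ℤ) : R) + ((-1 : ℤ) : R) * v + ((1 : ℤ) : R) * τ v =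
          (p : R) * (3 * w') := by
        push_cast
        linear_combination hw2 + 3 * hj
      have h3 := indep hR τ hτ htr p (hS p hp).1 (hS p hp).2 v (hv p hp) (fun h => absurd h hp3)
        _ _ _ _ h2
      have h4 : (p : ℤ) ∣ 1 := h3.2.2
      exact (Nat.prime_iff_prime_int.mp (hS p hp).1).not_isUnit (isUnit_of_dvd_one h4)
  · rintro - ⟨j, w', hj⟩
    apply hw3
    obtain ⟨d, hd⟩ := hD3S 3 h3S
    have hd' : (D3 : R) = 3 * (d : R) := by rw [hd]; push_cast; ring
    refine Sc.of_mul (hcbS 3 h3S)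
      ⟨j, w' - (d : R) * (τ (y * ((i : R) + 3 * w₀)) - y * ((i : R) + 3 * w₀)), ?_⟩
    have h1 : τ v' = (cb : R) * τ w₀ + (D3 : R) * τ (y * ((i : R) + 3 * w₀)) := by
      rw [hv']
      simp only [map_add, map_mul, map_intCast]
    rw [h1, hv', hd'] at hj
    push_cast at hj ⊢
    linear_combination hj

end CycAlg

end Pool.Agent.MP_ca7d12_nt
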