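import Pool.Agent.Lib.MP_ca7d12_nt.Defs

set_option autoImplicit false

namespace Pool.Agent.MP_ca7d12_nt

open NumberField

/-- An element of `𝓞 K` with a nonzero integer multiple in `ℤ` is an integer. -/
theorem exists_int_of_mul_eq (K : Type*) [Field K] [NumberField K] (w : 𝓞 K) (a b : ℤ)
    (ha : a ≠ 0) (h : (a : 𝓞 K) * w = (b : 𝓞 K)) : ∃ n : ℤ, w = (n : 𝓞 K) := by
  have haK : (a : K) ≠ 0 := by exact_mod_cast ha
  have h1 : (w : K) = algebraMap ℚ K ((b : ℚ) / (a : ℚ)) := by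
    have h2 := congrArg (fun x : 𝓞 K => (x : K)) h
    simp only [map_mul, map_intCast] at h2
    rw [map_div₀, map_intCast, map_intCast, eq_div_iff haK, mul_comm]
    exact h2
  have h3 : IsIntegral ℤ ((b : ℚ) / (a : ℚ)) := by
    have h4 : IsIntegral ℤ (algebraMap ℚ K ((b : ℚ) / (a : ℚ))) := by
      rw [← h1]
      exact w.isIntegral_coe
    exact (isIntegral_algebraMap_iff (algebraMap ℚ K).injective).mp h4
  obtain ⟨n, hn⟩ := IsIntegrallyClosed.isIntegral_iff.mp h3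
  refine ⟨n, ?_⟩
  apply RingOfIntegers.ext
  rw [h1, ← hn]
  simp

/-- Content extraction: a power of the unit `η` can be written `c + D v` with `f ∣ D` and
`v` primitive modulo all primes. -/
theorem exists_level (K : Type*) [Field K] [NumberField K]
    (η : (𝓞 K)ˣ) (hη : ∀ (n : ℕ) (c : ℤ), 0 < n → ((η ^ n : (𝓞 K)ˣ) : 𝓞 K) ≠ (c : 𝓞 K))
    (f : ℤ) (hf : f ≠ 0) :
    ∃ (η' : (𝓞 K)ˣ) (c D : ℤ) (v : 𝓞 K), D ≠ 0 ∧ f ∣ D ∧ (η' : 𝓞 K) = (c : 𝓞 K) + (D : 𝓞 K) * v ∧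
      ∀ p : ℕ, p.Prime → ∀ (i : ℤ) (w : 𝓞 K), v ≠ (i : 𝓞 K) + (p : 𝓞 K) * w := by
  classical
  -- Step 1: a power of `η` is `1` modulo `f`
  have hf' : (f : 𝓞 K) ≠ 0 := by exact_mod_cast hf
  have hI : Ideal.span {(f : 𝓞 K)} ≠ ⊥ := by
    rw [Ne, Ideal.span_singleton_eq_bot]
    exact hf'
  have : Finite (𝓞 K ⧸ Ideal.span {(f : 𝓞 K)}) := Ideal.finiteQuotientOfFreeOfNeBot _ hI
  set u : (𝓞 K ⧸ Ideal.span {(f : 𝓞 K)})ˣ := Units.map (Ideal.Quotient.mk _).toMonoidHom η with hu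
  have hfin : IsOfFinOrder u := isOfFinOrder_of_finite u
  set n := orderOf u with hn
  have hn0 : 0 < n := hfin.orderOf_pos
  have hun : u ^ n = 1 := pow_orderOf_eq_one u
  have hmem : ((η ^ n : (𝓞 K)ˣ) : 𝓞 K) - 1 ∈ Ideal.span {(f : 𝓞 K)} := by
    rw [← Ideal.Quotient.eq]
    have := congrArg (fun x : (𝓞 K ⧸ Ideal.span {(f : 𝓞 K)})ˣ => (x : 𝓞 K ⧸ Ideal.span {(f : 𝓞 K)})) hun
    simpa [hu] using this
  obtain ⟨w, hw⟩ := Ideal.mem_span_singleton'.mp hmem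
  have hw' : ((η ^ n : (𝓞 K)ˣ) : 𝓞 K) = 1 + (f : 𝓞 K) * w := by
    rw [mul_comm, hw]
    ring
  -- Step 2: a nonzero integer divisible by every content of `w`
  set b := Module.Free.chooseBasis ℤ (𝓞 K) with hb
  have hne : ∃ j k, b.repr 1 j * b.repr w k - b.repr 1 k * b.repr w j ≠ 0 := by
    by_contra hcon
    push Not at hcon
    have h1 : b.repr (1 : 𝓞 K) ≠ 0 := by
      rw [Ne, LinearEquiv.map_eq_zero_iff]
      exact one_ne_zero
    obtain ⟨j, hj⟩ := Finsupp.ne_iff.mp h1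
    have hj0 : b.repr 1 j ≠ 0 := by simpa using hj
    have h2 : (b.repr 1 j) • w = (b.repr w j) • (1 : 𝓞 K) := by
      apply b.repr.injective
      ext k
      rw [map_smul, map_smul, Finsupp.smul_apply, Finsupp.smul_apply, smul_eq_mul, smul_eq_mul]
      have := hcon j k
      linarith
    rw [zsmul_eq_mul, zsmul_eq_mul, mul_one] at h2
    obtain ⟨m, hm⟩ := exists_int_of_mul_eq K w _ _ hj0 h2
    refine hη n (1 + f * m) hn0 ?_
    rw [hw', hm]
    push_cast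
    ring
  obtain ⟨j, k, hjk⟩ := hne
  set N : ℤ := b.repr 1 j * b.repr w k - b.repr 1 k * b.repr w j with hN
  let P : ℕ → Prop := fun d => 0 < d ∧ ∃ (i : ℤ) (v : 𝓞 K), w = (i : 𝓞 K) + (d : 𝓞 K) * v
  have hPN : ∀ d, P d → d ≤ N.natAbs := by
    rintro d ⟨hd, i, v, hv⟩
    have hdv : (d : ℤ) ∣ N := by
      have hw2 : w = i • (1 : 𝓞 K) + (d : ℤ) • v := by
        rw [hv, zsmul_eq_mul, zsmul_eq_mul]
        push_cast
        ring
      have hr : ∀ l, b.repr w l = i * b.repr 1 l + (d : ℤ) * b.repr v l := by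
        intro l
        rw [hw2, map_add, map_smul, map_smul, Finsupp.add_apply, Finsupp.smul_apply,
          Finsupp.smul_apply, smul_eq_mul, smul_eq_mul]
      rw [hN, hr k, hr j]
      exact ⟨b.repr 1 j * b.repr v k - b.repr 1 k * b.repr v j, by ring⟩
    exact Nat.le_of_dvd (Int.natAbs_pos.mpr hjk) (Int.natCast_dvd.mp hdv)
  have hP1 : P 1 := ⟨one_pos, 0, w, by simp⟩
  set M := Nat.findGreatest P N.natAbs with hM
  have hPM : P M := Nat.findGreatest_spec (hPN 1 hP1) hP1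
  have hmax : ∀ d, P d → d ≤ M := fun d hd => Nat.le_findGreatest (hPN d hd) hd
  obtain ⟨hM0, i, v, hv⟩ := hPM
  refine ⟨η ^ n, 1 + f * i, f * M, v, ?_, dvd_mul_right _ _, ?_, ?_⟩
  · exact mul_ne_zero hf (by exact_mod_cast hM0.ne')
  · rw [hw', hv]
    push_cast
    ring
  · intro p hp i' w' hcon
    have h1 : P (M * p) := by
      refine ⟨Nat.mul_pos hM0 hp.pos, i + M * i', w', ?_⟩
      rw [hv, hcon]
      push_cast
      ring
    have h2 := hmax _ h1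
    have h3 := hp.two_le
    nlinarith

end Pool.Agent.MP_ca7d12_nt
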