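import Pool.Agent.Lib.MP_ca7d12_nt.Defs

set_option autoImplicit false

namespace Pool.Agent.MP_ca7d12_nt

open NumberField

/-- A cyclic cubic field has a ring automorphism `τ` of its ring of integers of order dividing three
whose trace `1 + τ + τ²` has values in `ℤ`. -/
theorem exists_tau (K : Type*) [Field K] [NumberField K] (hK : Module.finrank ℚ K = 3)
    [IsGalois ℚ K] :
    ∃ τ : 𝓞 K ≃+* 𝓞 K, (∀ x, τ (τ (τ x)) = x) ∧ ∀ x : 𝓞 K, ∃ t : ℤ, x + τ x + τ (τ x) = (t : 𝓞 K) := by
  classical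
  have hcard : Nat.card (K ≃ₐ[ℚ] K) = 3 := by
    rw [← hK]
    exact IsGalois.card_aut_eq_finrank ℚ K
  have : Fact (Nat.Prime 3) := ⟨Nat.prime_three⟩
  obtain ⟨g, hg⟩ := exists_prime_orderOf_dvd_card' (G := K ≃ₐ[ℚ] K) 3 (by rw [hcard])
  have hg3 : g ^ 3 = 1 := by rw [← hg]; exact pow_orderOf_eq_one g
  have hg1 : g ≠ 1 := by
    intro h1
    rw [h1, orderOf_one] at hg
    omega
  have hg2 : g * g ≠ 1 := by
    intro h1
    have h2 : g ^ 3 = g := by rw [pow_succ, pow_two, h1, one_mul]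
    exact hg1 (h2.symm.trans hg3)
  have hggg : ∀ x : K, g (g (g x)) = x := by
    intro x
    have h1 : (g ^ 3) x = g (g (g x)) := rfl
    rw [← h1, hg3]
    rfl
  have huniv : (Finset.univ : Finset (K ≃ₐ[ℚ] K)) = {1, g, g * g} := by
    symm
    apply Finset.eq_univ_of_card
    have hF : Fintype.card (K ≃ₐ[ℚ] K) = 3 := by rw [← Nat.card_eq_fintype_card]; exact hcard
    rw [hF, Finset.card_insert_of_notMem, Finset.card_pair]
    · intro h1
      exact hg1 (mul_left_cancel (a := g) (by rw [← h1, mul_one]))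
    · rw [Finset.mem_insert, Finset.mem_singleton]
      rintro (h1 | h1)
      · exact hg1 h1.symm
      · exact hg2 h1.symm
  refine ⟨RingOfIntegers.mapRingEquiv (g : K ≃+* K), fun x => ?_, fun x => ?_⟩
  · apply RingOfIntegers.ext
    rw [RingOfIntegers.mapRingEquiv_apply, RingOfIntegers.mapRingEquiv_apply,
      RingOfIntegers.mapRingEquiv_apply]
    exact hggg x
  · have h1 : IsIntegral ℤ (Algebra.trace ℚ K (x : K)) :=
      Algebra.isIntegral_trace (RingOfIntegers.isIntegral_coe x)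
    obtain ⟨t, ht⟩ := IsIntegrallyClosed.isIntegral_iff.1 h1
    refine ⟨t, ?_⟩
    apply RingOfIntegers.ext
    have h2 := trace_eq_sum_automorphisms (K := ℚ) (L := K) (x : K)
    rw [huniv, Finset.sum_insert, Finset.sum_pair] at h2
    · have h4 : ((x + RingOfIntegers.mapRingEquiv (g : K ≃+* K) x +
          RingOfIntegers.mapRingEquiv (g : K ≃+* K) (RingOfIntegers.mapRingEquiv (g : K ≃+* K) x) :
            𝓞 K) : K) = (x : K) + g (x : K) + g (g (x : K)) := rfl
      rw [← ht] at h2
      have h3 : (algebraMap ℚ K) ((algebraMap ℤ ℚ) t) = ((t : 𝓞 K) : K) := by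
        simp
      rw [h4, ← h3, h2, add_assoc]
      rfl
    · intro h3
      exact hg1 (mul_left_cancel (a := g) (by rw [← h3, mul_one]))
    · rw [Finset.mem_insert, Finset.mem_singleton]
      rintro (h3 | h3)
      · exact hg1 h3.symm
      · exact hg2 h3.symm

end Pool.Agent.MP_ca7d12_nt
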