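import Pool.Agent.Lib.MP_ca7d12_nt.Defs

set_option autoImplicit false

namespace Pool.Agent.MP_ca7d12_nt

open NumberField

private theorem isUnit_of_isUnit_intCast_aux (K : Type*) [Field K] [NumberField K] (q : ℤ)
    (h : IsUnit (q : 𝓞 K)) : IsUnit q := by
  have h1 : IsUnit (Algebra.norm ℤ (algebraMap ℤ (𝓞 K) q)) := by
    refine IsUnit.map (Algebra.norm ℤ) ?_
    simpa using h
  rw [Algebra.norm_algebraMap] at h1
  refine (isUnit_pow_iff ?_).1 h1
  rw [RingOfIntegers.rank]
  exact Module.finrank_pos.ne'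

/-- There is a unit none of whose powers is a rational integer (cubic field with three real
embeddings). -/
theorem exists_unit (K : Type*) [Field K] [NumberField K] (hK : Module.finrank ℚ K = 3)
    (σ : Fin 3 → K →+* ℝ) (hσ : Function.Injective σ) :
    ∃ η : (𝓞 K)ˣ, ∀ (n : ℕ) (c : ℤ), 0 < n → ((η ^ n : (𝓞 K)ˣ) : 𝓞 K) ≠ (c : 𝓞 K) := by
  classical
  have _ := hσ
  have hcard : 1 < Fintype.card (InfinitePlace K) := by
    have h1 := InfinitePlace.card_add_two_mul_card_eq_rank K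
    have h2 := InfinitePlace.card_eq_nrRealPlaces_add_nrComplexPlaces K
    omega
  obtain ⟨w₁, w₂, hw⟩ := Fintype.one_lt_card_iff.1 hcard
  obtain ⟨u, hu⟩ := Units.dirichletUnitTheorem.exists_unit K w₁
  refine ⟨u, fun n c hn h => ?_⟩
  have h1 := hu w₂ hw.symm
  have h0 : (0 : ℝ) < w₂ (u : K) := Units.pos_at_place u w₂
  have h2 : w₂ (u : K) < 1 := (Real.log_neg_iff h0).1 h1
  have hc : IsUnit (c : 𝓞 K) := by
    rw [← h]
    exact Units.isUnit _
  have hc' := isUnit_of_isUnit_intCast_aux K c hc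
  have h3 : ((u : K)) ^ n = (c : K) := by
    have := congrArg (algebraMap (𝓞 K) K) h
    simpa using this
  have h4 : w₂ (c : K) = 1 := by
    rcases Int.isUnit_iff.1 hc' with rfl | rfl
    · simp
    · have h7 : w₂ (-1 : K) ^ 2 = 1 := by rw [← map_pow]; simp
      have h8 : (0 : ℝ) ≤ w₂ (-1 : K) := apply_nonneg _ _
      push_cast
      exact (pow_eq_one_iff_of_nonneg h8 two_ne_zero).1 h7
  have h5 : w₂ (u : K) ^ n = 1 := by
    rw [← map_pow, h3, h4]
  have h6 : w₂ (u : K) ^ n < 1 := pow_lt_one₀ h0.le h2 hn.ne'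
  linarith

/-- If an integer is a unit of `𝓞 K`, it is `± 1`. -/
theorem isUnit_of_isUnit_intCast (K : Type*) [Field K] [NumberField K] (q : ℤ)
    (h : IsUnit (q : 𝓞 K)) : IsUnit q :=
  isUnit_of_isUnit_intCast_aux K q h

end Pool.Agent.MP_ca7d12_nt
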