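import Pool.Agent.Lib.MP_ca7d12_nt.Defs

set_option autoImplicit false

namespace Pool.Agent.MP_ca7d12_nt

open NumberField

/-- Linear independence modulo every prime of `S` gives spanning modulo their product. -/
theorem span_of_indep (K : Type*) [Field K] [NumberField K] (hK : Module.finrank ℚ K = 3)
    (S : Finset ℕ) (hS : ∀ p ∈ S, p.Prime) (v₁ v₂ : 𝓞 K)
    (hind : ∀ p ∈ S, ∀ (i a b : ℤ) (w : 𝓞 K),
      (i : 𝓞 K) + (a : 𝓞 K) * v₁ + (b : 𝓞 K) * v₂ = (p : 𝓞 K) * w →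
        (p : ℤ) ∣ i ∧ (p : ℤ) ∣ a ∧ (p : ℤ) ∣ b) (z : 𝓞 K) :
    ∃ (i a b : ℤ) (w : 𝓞 K),
      z = (i : 𝓞 K) + (a : 𝓞 K) * v₁ + (b : 𝓞 K) * v₂ + (((∏ p ∈ S, (p : ℤ)) : ℤ) : 𝓞 K) * w := by
  classical
  obtain ⟨P, hP⟩ : ∃ P : ℕ, P = ∏ p ∈ S, p := ⟨_, rfl⟩
  have hP0 : P ≠ 0 := by
    rw [hP]
    exact Finset.prod_ne_zero_iff.2 fun p hp => (hS p hp).ne_zero
  have hPZ : (∏ p ∈ S, (p : ℤ)) = (P : ℤ) := by
    rw [hP]
    push_cast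
    rfl
  rw [hPZ]
  obtain ⟨I, hI⟩ : ∃ I : Ideal (𝓞 K), I = Ideal.span {(((P : ℤ) : ℤ) : 𝓞 K)} := ⟨_, rfl⟩
  have hcard : Nat.card (𝓞 K ⧸ I) = P ^ 3 := by
    have h1 : Ideal.absNorm I = P ^ 3 := by
      rw [hI, Ideal.absNorm_span_singleton]
      have h2 : (((P : ℤ) : ℤ) : 𝓞 K) = algebraMap ℤ (𝓞 K) (P : ℤ) := by simp
      rw [h2, Algebra.norm_algebraMap, RingOfIntegers.rank, hK, Int.natAbs_pow, Int.natAbs_natCast]
    rw [← h1, Ideal.absNorm_apply, Submodule.cardQuot_apply]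
  -- the map
  obtain ⟨F, hF⟩ : ∃ F : (Fin 3 → Fin P) → 𝓞 K, ∀ x, F x = (((x 0 : ℕ) : ℤ) : 𝓞 K) +
      (((x 1 : ℕ) : ℤ) : 𝓞 K) * v₁ + (((x 2 : ℕ) : ℤ) : 𝓞 K) * v₂ := ⟨_, fun _ => rfl⟩
  have hdvd : ∀ i : ℤ, (∀ p ∈ S, (p : ℤ) ∣ i) → (P : ℤ) ∣ i := by
    intro i hi
    rw [hP, Int.natCast_dvd]
    refine Finset.prod_primes_dvd _ (fun p hp => (hS p hp).prime) fun p hp => ?_
    exact Int.natCast_dvd.1 (hi p hp)
  have hinj : Function.Injective fun x => Ideal.Quotient.mk I (F x) := by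
    intro x y hxy
    have h1 : F x - F y ∈ I := Ideal.Quotient.eq.1 hxy
    rw [hI, Ideal.mem_span_singleton] at h1
    obtain ⟨w, hw⟩ := h1
    have h2 : ∀ p ∈ S, (p : ℤ) ∣ ((x 0 : ℕ) : ℤ) - ((y 0 : ℕ) : ℤ) ∧
        (p : ℤ) ∣ ((x 1 : ℕ) : ℤ) - ((y 1 : ℕ) : ℤ) ∧
        (p : ℤ) ∣ ((x 2 : ℕ) : ℤ) - ((y 2 : ℕ) : ℤ) := by
      intro p hp
      obtain ⟨c, hc⟩ : p ∣ P := by
        rw [hP]
        exact Finset.dvd_prod_of_mem _ hp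
      refine hind p hp _ _ _ ((c : 𝓞 K) * w) ?_
      have hPc : (P : 𝓞 K) = (p : 𝓞 K) * (c : 𝓞 K) := by
        exact_mod_cast congrArg (Nat.cast : ℕ → 𝓞 K) hc
      rw [hF, hF] at hw
      push_cast at hw ⊢
      linear_combination hw + w * hPc
    have h3 : ∀ j : Fin 3, (P : ℤ) ∣ ((x j : ℕ) : ℤ) - ((y j : ℕ) : ℤ) := by
      intro j
      fin_cases j
      · exact hdvd _ fun p hp => (h2 p hp).1
      · exact hdvd _ fun p hp => (h2 p hp).2.1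
      · exact hdvd _ fun p hp => (h2 p hp).2.2
    funext j
    have h4 := (x j).2
    have h5 := (y j).2
    have h6 : ((x j : ℕ) : ℤ) - ((y j : ℕ) : ℤ) = 0 := by
      refine Int.eq_zero_of_abs_lt_dvd (h3 j) ?_
      rw [abs_lt]
      constructor <;> omega
    exact Fin.ext (by omega)
  have hfin : Finite (𝓞 K ⧸ I) := by
    refine Nat.finite_of_card_ne_zero ?_
    rw [hcard]
    exact pow_ne_zero 3 hP0
  have hbij : Function.Bijective fun x => Ideal.Quotient.mk I (F x) := by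
    refine Function.Injective.bijective_of_nat_card_le hinj ?_
    rw [hcard, Nat.card_eq_fintype_card, Fintype.card_fun, Fintype.card_fin, Fintype.card_fin]
  obtain ⟨x, hx⟩ := hbij.2 (Ideal.Quotient.mk I z)
  have h7 : z - F x ∈ I := Ideal.Quotient.eq.1 hx.symm
  rw [hI, Ideal.mem_span_singleton] at h7
  obtain ⟨w, hw⟩ := h7
  rw [hF] at hw
  exact ⟨((x 0 : ℕ) : ℤ), ((x 1 : ℕ) : ℤ), ((x 2 : ℕ) : ℤ), w, by linear_combination hw⟩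

end Pool.Agent.MP_ca7d12_nt
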