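import Pool.Agent.Lib.MP_ca7d12_nt.CycAlg
import Pool.Agent.Lib.MP_ca7d12_nt.ExistsUnit
import Pool.Agent.Lib.MP_ca7d12_nt.ExistsLevel
import Pool.Agent.Lib.MP_ca7d12_nt.SpanIndep
import Pool.Agent.Lib.MP_ca7d12_nt.ExistsTau

set_option autoImplicit false

namespace Pool.Agent.MP_ca7d12_nt

open NumberField

/-- In a cyclic cubic field the units are open modulo scalars for every finite set of primes not
congruent to `1` modulo `3`. -/
theorem unitsOpen_cyclic (K : Type*) [Field K] [NumberField K] (hK : Module.finrank ℚ K = 3)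
    [IsGalois ℚ K] (σ : Fin 3 → K →+* ℝ) (hσ : Function.Injective σ)
    (S : Finset ℕ) (hS : ∀ p ∈ S, p.Prime ∧ p % 3 ≠ 1) :
    UnitsOpen (𝓞 K) (∏ p ∈ S, (p : ℤ)) := by
  obtain ⟨η₀, hη₀⟩ := exists_unit K hK σ hσ
  obtain ⟨τ, hτ, htr⟩ := exists_tau K hK
  have hR : ∀ q : ℤ, IsUnit (q : 𝓞 K) → IsUnit q := isUnit_of_isUnit_intCast K
  set P : ℤ := ∏ p ∈ S, (p : ℤ) with hP
  have hP0 : P ≠ 0 := by
    rw [hP]
    exact Finset.prod_ne_zero_iff.mpr fun p hp => by exact_mod_cast (hS p hp).1.ne_zero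
  have hSP : ∀ p ∈ S, (p : ℤ) ∣ P := fun p hp => by
    rw [hP]
    exact Finset.dvd_prod_of_mem (fun p : ℕ => (p : ℤ)) hp
  obtain ⟨η₁, c₁, D₁, v₁, hD₁, hPD₁, h₁, hprim⟩ :=
    exists_level K η₀ hη₀ (P ^ 2) (pow_ne_zero 2 hP0)
  obtain ⟨η', c', D', v', hD', hPD', h', hv', hv3'⟩ := CycAlg.improve hR τ hτ htr S hS P hP0 hSP
    D₁ hD₁ hPD₁ η₁ c₁ v₁ h₁ (by
      rintro p hp ⟨i, w, hiw⟩
      exact hprim p (hS p hp).1 i w hiw)
  refine unitsOpen_of_two hR P D' hP0 hD' hPD' η' (Units.map ((τ : 𝓞 K →+* 𝓞 K) : 𝓞 K →* 𝓞 K) η')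
    c' c' v' (τ v') h' ?_ ?_
  · rw [Units.coe_map]
    change τ (η' : 𝓞 K) = _
    rw [h']
    simp
  · intro z
    refine span_of_indep K hK S (fun p hp => (hS p hp).1) v' (τ v') ?_ z
    intro p hp i a b w h
    refine CycAlg.indep hR τ hτ htr p (hS p hp).1 (hS p hp).2 v' (hv' p hp) ?_ i a b w h
    intro h3
    subst h3
    exact hv3' hp

end Pool.Agent.MP_ca7d12_nt
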