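import Mathlib

/-! Definitions for the fixed-field theorem on `MP_ca7d12_nt`. -/

set_option autoImplicit false

namespace Pool.Agent.MP_ca7d12_nt

open NumberField

/-- The units of `R` are open modulo scalars in the `P`-adic topology: for some nonzero integer `D`
and every power `P ^ k`, every element `1 + D z` of `R` is congruent modulo `P ^ k` to a rational
integer times a unit. -/
def UnitsOpen (R : Type*) [CommRing R] (P : ℤ) : Prop :=
  ∃ D : ℤ, D ≠ 0 ∧ ∀ (k : ℕ) (z : R), ∃ (u : Rˣ) (c : ℤ) (w : R),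
    1 + (D : R) * z = (c : R) * (u : R) + ((P ^ k : ℤ) : R) * w

/-- `markovMin A` is `m(F)` for the form `F(x) = ∏ i, ∑ j, A i j * x j`. -/
noncomputable def markovMin (A : Matrix (Fin 3) (Fin 3) ℝ) : ℝ :=
  sInf {r : ℝ | ∃ x : Fin 3 → ℤ, x ≠ 0 ∧
    r = |(∏ i : Fin 3, ∑ j : Fin 3, A i j * (x j : ℝ)) / A.det|}

/-- The natural number `n` is nonzero and all its prime factors lie in `S`. -/
def IsSNumber (S : Finset ℕ) (n : ℕ) : Prop :=
  n ≠ 0 ∧ ∀ p : ℕ, p.Prime → p ∣ n → p ∈ S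

/-- The lattice `ℤ α₀ + ℤ α₁ + ℤ α₂` is stable under multiplication by `n 𝓞_K`, that is, `n 𝓞_K`
is contained in its ring of multipliers. -/
def StableUnder (K : Type*) [Field K] [NumberField K] (α : Fin 3 → K) (n : ℕ) : Prop :=
  ∀ (z : 𝓞 K), ∀ x ∈ Submodule.span ℤ (Set.range α),
    (n : K) * (z : K) * x ∈ Submodule.span ℤ (Set.range α)

end Pool.Agent.MP_ca7d12_nt
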