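import Pool.Agent.Lib.MP_ca7d12_nt.ProdEmb

set_option autoImplicit false

namespace Pool.Agent.MP_ca7d12_nt

open NumberField

/-- The values of `m` for the lattices inside a fixed ideal that contain an element of norm at
most `C`. -/
theorem finite_values (K : Type*) [Field K] [NumberField K] (hK : Module.finrank ℚ K = 3)
    (σ : Fin 3 → K →+* ℝ) (hσ : Function.Injective σ) (I : Ideal (𝓞 K)) (hI : I ≠ ⊥)
    (C : ℤ) (ε : ℝ) (hε : 0 < ε) :
    {m : ℝ | ∃ α : Fin 3 → 𝓞 K, (∀ j, α j ∈ I) ∧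
      (∃ x ∈ AddSubgroup.closure (Set.range α), x ≠ 0 ∧ |Algebra.norm ℤ x| ≤ C) ∧
      m = markovMin (fun i j => σ i (α j : K)) ∧ ε ≤ m}.Finite := by
  classical
  have hrk : Module.finrank ℤ (𝓞 K) = 3 := by
    rw [NumberField.RingOfIntegers.rank, hK]
  set b : Module.Basis (Fin 3) ℤ (𝓞 K) := Module.finBasisOfFinrankEq ℤ (𝓞 K) hrk with hb
  set Δ : Matrix (Fin 3) (Fin 3) ℝ := Matrix.of fun i k => σ i (b k : K) with hΔ
  set δ : ℝ := Δ.det with hδ
  set N₀ : ℕ := C.toNat + 1 with hN₀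
  set B₀ : ℕ := ⌊(C : ℝ) / (ε * |δ|)⌋₊ + 1 with hB₀
  have hfin : (((Finset.range N₀) ×ˢ (Finset.range B₀)).image
      (fun z : ℕ × ℕ => (z.1 : ℝ) / (|δ| * z.2)) : Set ℝ).Finite := Finset.finite_toSet _
  refine hfin.subset ?_
  rintro m ⟨α, -, ⟨x₀, hx₀, hx₀0, hx₀C⟩, hm, hεm⟩
  -- the matrix of coordinates
  set B : Matrix (Fin 3) (Fin 3) ℤ := Matrix.of fun k j => b.repr (α j) k with hB
  set A : Matrix (Fin 3) (Fin 3) ℝ := fun i j => σ i (α j : K) with hA
  have hαB : ∀ j, (α j : K) = ∑ k, (B k j : K) * (b k : K) := by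
    intro j
    have h1 := b.sum_repr (α j)
    have h2 := congrArg (fun z : 𝓞 K => (z : K)) h1
    simp only [map_sum, zsmul_eq_mul, map_mul, map_intCast] at h2
    exact h2.symm
  have hAB : A = Δ * B.map (fun z : ℤ => (z : ℝ)) := by
    ext i j
    rw [Matrix.mul_apply]
    show σ i (α j : K) = ∑ k, σ i (b k : K) * ((B k j : ℤ) : ℝ)
    rw [hαB j, map_sum]
    refine Finset.sum_congr rfl fun k _ => ?_
    rw [map_mul, map_intCast, mul_comm]
  have hdet : A.det = δ * (B.det : ℝ) := by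
    rw [hAB, Matrix.det_mul]
    congr 1
    exact (Int.cast_det B).symm
  -- the values of the form
  have hval : ∀ x : Fin 3 → ℤ, ∏ i : Fin 3, ∑ j : Fin 3, A i j * (x j : ℝ) =
      ((Algebra.norm ℤ (∑ j, x j • α j) : ℤ) : ℝ) := by
    intro x
    rw [← prod_embeddings K hK σ hσ]
    refine Finset.prod_congr rfl fun i _ => ?_
    have h1 : ((∑ j, x j • α j : 𝓞 K) : K) = ∑ j, (α j : K) * (x j : K) := by
      simp only [map_sum, zsmul_eq_mul, map_mul, map_intCast]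
      exact Finset.sum_congr rfl fun j _ => mul_comm _ _
    rw [h1, map_sum]
    refine Finset.sum_congr rfl fun j _ => ?_
    rw [map_mul, map_intCast]
  -- the set of the norms
  set S : Set ℕ := {n | ∃ x : Fin 3 → ℤ, x ≠ 0 ∧ n = (Algebra.norm ℤ (∑ j, x j • α j)).natAbs}
    with hS
  obtain ⟨y, hy0, hy⟩ : ∃ y : Fin 3 → ℤ, y ≠ 0 ∧ x₀ = ∑ j, y j • α j := by
    have h1 : x₀ ∈ Submodule.span ℤ (Set.range α) := by
      have h2 : (Submodule.span ℤ (Set.range α)).toAddSubgroup =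
          AddSubgroup.closure (Set.range α) := Submodule.span_int_eq_addSubgroupClosure _
      rw [← h2] at hx₀
      exact hx₀
    obtain ⟨y, hy⟩ := (Submodule.mem_span_range_iff_exists_fun ℤ).1 h1
    refine ⟨y, ?_, hy.symm⟩
    rintro rfl
    apply hx₀0
    rw [← hy]
    simp
  have hSne : S.Nonempty := ⟨_, y, hy0, rfl⟩
  have hleast : IsLeast {r : ℝ | ∃ x : Fin 3 → ℤ, x ≠ 0 ∧
      r = |(∏ i : Fin 3, ∑ j : Fin 3, A i j * (x j : ℝ)) / A.det|} ((sInf S : ℕ) / |A.det|) := by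
    constructor
    · obtain ⟨x, hx0, hx⟩ := Nat.sInf_mem hSne
      refine ⟨x, hx0, ?_⟩
      rw [hval, abs_div, hx]
      congr 1
      rw [Nat.cast_natAbs, Int.cast_abs]
    · rintro r ⟨x, hx0, rfl⟩
      rw [hval, abs_div]
      refine div_le_div_of_nonneg_right ?_ (abs_nonneg _)
      have h1 : sInf S ≤ (Algebra.norm ℤ (∑ j, x j • α j)).natAbs := Nat.sInf_le ⟨x, hx0, rfl⟩
      have h2 : ((sInf S : ℕ) : ℝ) ≤ (((Algebra.norm ℤ (∑ j, x j • α j)).natAbs : ℕ) : ℝ) := by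
        exact_mod_cast h1
      rwa [Nat.cast_natAbs, Int.cast_abs] at h2
  have hm' : m = (sInf S : ℕ) / |A.det| := by
    rw [hm]
    exact hleast.csInf_eq
  have hdet0 : A.det ≠ 0 := by
    intro h
    rw [hm', h, abs_zero, div_zero] at hεm
    exact absurd hεm (not_le.2 hε)
  have ht : 0 < |A.det| := abs_pos.2 hdet0
  have hδ0 : δ ≠ 0 := by
    intro h
    apply hdet0
    rw [hdet, h, zero_mul]
  have hδp : 0 < |δ| := abs_pos.2 hδ0
  -- the bound for the norm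
  have hinfC : ((sInf S : ℕ) : ℤ) ≤ C := by
    have h1 : sInf S ≤ (Algebra.norm ℤ x₀).natAbs := Nat.sInf_le ⟨y, hy0, by rw [hy]⟩
    have h2 : (((Algebra.norm ℤ x₀).natAbs : ℕ) : ℤ) = |Algebra.norm ℤ x₀| := Int.natCast_natAbs _
    omega
  have hC0 : (0 : ℤ) ≤ C := le_trans (abs_nonneg _) hx₀C
  -- the bound for the determinant
  have hdetB : |A.det| = |δ| * ((B.det.natAbs : ℕ) : ℝ) := by
    rw [hdet, abs_mul, Nat.cast_natAbs, Int.cast_abs]
  have hle : |A.det| ≤ C / ε := by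
    rw [le_div_iff₀ hε]
    have h1 : ε ≤ (sInf S : ℕ) / |A.det| := hm' ▸ hεm
    rw [le_div_iff₀ ht] at h1
    have h2 : ((sInf S : ℕ) : ℝ) ≤ (C : ℝ) := by exact_mod_cast hinfC
    linarith [mul_comm ε |A.det|]
  rw [Finset.coe_image]
  refine ⟨(sInf S, B.det.natAbs), ?_, ?_⟩
  · rw [Finset.mem_coe, Finset.mem_product, Finset.mem_range, Finset.mem_range]
    constructor
    · show sInf S < C.toNat + 1
      omega
    · show B.det.natAbs < ⌊(C : ℝ) / (ε * |δ|)⌋₊ + 1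
      rw [Nat.lt_succ_iff]
      apply Nat.le_floor
      rw [le_div_iff₀ (mul_pos hε hδp)]
      rw [hdetB, le_div_iff₀ hε] at hle
      linarith [mul_comm (|δ| * ((B.det.natAbs : ℕ) : ℝ)) ε]
  · show ((sInf S : ℕ) : ℝ) / (|δ| * ((B.det.natAbs : ℕ) : ℝ)) = m
    rw [← hdetB, hm']

end Pool.Agent.MP_ca7d12_nt
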