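import Pool.Agent.Lib.MP_ca7d12_nt.Defs

set_option autoImplicit false

namespace Pool.Agent.MP_ca7d12_nt

open NumberField

/-- Reduction: every lattice is homothetic to a sublattice of one of finitely many ideals which
generates this ideal. -/
theorem exists_reduction (K : Type*) [Field K] [NumberField K] :
    ∃ L : Finset (Ideal (𝓞 K)), (∀ I ∈ L, I ≠ ⊥) ∧
      ∀ (α : Fin 3 → K) (n : ℕ), LinearIndependent ℚ α → StableUnder K α n →
        ∃ I ∈ L, ∃ (lam : K) (α' : Fin 3 → 𝓞 K), lam ≠ 0 ∧ (∀ j, (α' j : K) = lam * α j) ∧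
          Ideal.span (Set.range α') = I ∧
          ∀ y ∈ I, (n : 𝓞 K) * y ∈ AddSubgroup.closure (Set.range α') := by
  classical
  choose f hf using fun c : ClassGroup (𝓞 K) => ClassGroup.mk0_surjective c
  refine ⟨Finset.univ.image fun c => (f c : Ideal (𝓞 K)), ?_, ?_⟩
  · intro I hI
    obtain ⟨c, -, rfl⟩ := Finset.mem_image.1 hI
    exact nonZeroDivisors.ne_zero (f c).2
  intro α n hα hst
  obtain ⟨d, hd⟩ := IsLocalization.exist_integer_multiples_of_finite
    (nonZeroDivisors (𝓞 K)) α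
  choose β hβ using hd
  set g := algebraMap (𝓞 K) K with hg
  have hgi : Function.Injective g := RingOfIntegers.coe_injective
  have hg0 : ∀ u : 𝓞 K, u ≠ 0 → g u ≠ 0 := fun u hu h => hu (hgi (h.trans (map_zero g).symm))
  have hd0 : g (d : 𝓞 K) ≠ 0 := hg0 _ (nonZeroDivisors.ne_zero d.2)
  have hβ' : ∀ j, g (β j) = g (d : 𝓞 K) * α j := by
    intro j
    have h1 := hβ j
    rw [Algebra.smul_def] at h1
    exact h1
  have hβ0 : β 0 ≠ 0 := by
    intro h0
    have h1 := hβ' 0
    rw [h0, map_zero] at h1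
    exact mul_ne_zero hd0 (hα.ne_zero 0) h1.symm
  have hJ : Ideal.span (Set.range β) ≠ 0 := by
    intro h0
    have h1 : β 0 ∈ Ideal.span (Set.range β) := Ideal.subset_span ⟨0, rfl⟩
    rw [h0] at h1
    exact hβ0 (by simpa using h1)
  have hJ' := mem_nonZeroDivisors_of_ne_zero hJ
  have hc := hf (ClassGroup.mk0 ⟨Ideal.span (Set.range β), hJ'⟩)
  set I := f (ClassGroup.mk0 ⟨Ideal.span (Set.range β), hJ'⟩) with hI
  obtain ⟨x, y, hx, hy, hxy⟩ := ClassGroup.mk0_eq_mk0_iff.1 hc.symm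
  have hxy' : Ideal.span {x} * Ideal.span (Set.range β) = Ideal.span {y} * (I : Ideal (𝓞 K)) := hxy
  have hxK : g x ≠ 0 := hg0 x hx
  have hyK : g y ≠ 0 := hg0 y hy
  have hz : ∀ j, ∃ z ∈ (I : Ideal (𝓞 K)), y * z = x * β j := by
    intro j
    have h1 : x * β j ∈ Ideal.span {x} * Ideal.span (Set.range β) :=
      Ideal.mul_mem_mul (Ideal.mem_span_singleton_self x) (Ideal.subset_span ⟨j, rfl⟩)
    rw [hxy', Ideal.mem_span_singleton_mul] at h1
    exact h1
  choose z hzI hzj using hz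
  have hzK : ∀ j, g (z j) = g x * g (d : 𝓞 K) / g y * α j := by
    intro j
    have h1 : g (y * z j) = g (x * β j) := by rw [hzj j]
    rw [map_mul, map_mul, hβ' j] at h1
    field_simp
    linear_combination h1
  -- every element of `I` is a combination of the `z j`
  have hcomb : ∀ w ∈ (I : Ideal (𝓞 K)), ∃ a : Fin 3 → 𝓞 K, w = ∑ j, a j * z j := by
    intro w hw
    have h1 : y * w ∈ Ideal.span {y} * (I : Ideal (𝓞 K)) :=
      Ideal.mul_mem_mul (Ideal.mem_span_singleton_self y) hw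
    rw [← hxy', Ideal.mem_span_singleton_mul] at h1
    obtain ⟨v, hv, hv2⟩ := h1
    obtain ⟨a, ha⟩ := (Submodule.mem_span_range_iff_exists_fun (𝓞 K)).1 hv
    refine ⟨a, mul_left_cancel₀ hy ?_⟩
    rw [← hv2, ← ha, Finset.mul_sum, Finset.mul_sum]
    refine Finset.sum_congr rfl fun j _ => ?_
    rw [smul_eq_mul]
    linear_combination a j * (-hzj j)
  refine ⟨I, Finset.mem_image.2 ⟨_, Finset.mem_univ _, rfl⟩,
    g x * g (d : 𝓞 K) / g y, z, div_ne_zero (mul_ne_zero hxK hd0) hyK, hzK, ?_, ?_⟩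
  · refine le_antisymm (Ideal.span_le.2 ?_) fun w hw => ?_
    · rintro _ ⟨j, rfl⟩
      exact hzI j
    · obtain ⟨a, ha⟩ := hcomb w hw
      rw [ha]
      exact Ideal.sum_mem _ fun j _ => Ideal.mul_mem_left _ _ (Ideal.subset_span ⟨j, rfl⟩)
  · intro w hw
    obtain ⟨a, ha⟩ := hcomb w hw
    rw [ha, Finset.mul_sum]
    refine AddSubgroup.sum_mem _ fun j _ => ?_
    have h1 := hst (a j) (α j) (Submodule.subset_span ⟨j, rfl⟩)
    obtain ⟨m, hm⟩ := (Submodule.mem_span_range_iff_exists_fun ℤ).1 h1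
    have h2 : (n : 𝓞 K) * (a j * z j) = ∑ i, m i • z i := by
      refine hgi ?_
      rw [map_sum, map_mul, map_mul, map_natCast, hzK j]
      have h3 : ∀ i, g (m i • z i) = g x * g (d : 𝓞 K) / g y * (m i • α i) := by
        intro i
        rw [map_zsmul, hzK i, zsmul_eq_mul, zsmul_eq_mul]
        ring
      rw [Finset.sum_congr rfl fun i _ => h3 i, ← Finset.mul_sum, hm]
      show (n : K) * (g (a j) * (g x * g (d : 𝓞 K) / g y * α j)) =
        g x * g (d : 𝓞 K) / g y * ((n : K) * g (a j) * α j)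
      ring
    rw [h2]
    exact AddSubgroup.sum_mem _ fun i _ =>
      AddSubgroup.zsmul_mem _ (AddSubgroup.subset_closure (Set.mem_range_self i)) _

end Pool.Agent.MP_ca7d12_nt
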