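import Pool.Agent.Lib.MP_ca7d12_nt.KeySmall
import Pool.Agent.Lib.MP_ca7d12_nt.Reduction
import Pool.Agent.Lib.MP_ca7d12_nt.FiniteValues

set_option autoImplicit false

namespace Pool.Agent.MP_ca7d12_nt

open NumberField

theorem dvd_pow_of_primes (m : ℕ) : ∀ n : ℕ, n ≠ 0 → (∀ p : ℕ, p.Prime → p ∣ n → p ∣ m) →
    ∃ k : ℕ, n ∣ m ^ k := by
  intro n
  induction n using Nat.strong_induction_on with
  | _ n ih =>
    intro hn hp
    by_cases h1 : n = 1
    · exact ⟨0, by rw [h1]; exact one_dvd _⟩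
    · have hq := Nat.minFac_prime h1
      obtain ⟨n', hn'⟩ := Nat.minFac_dvd n
      have hn0 : n' ≠ 0 := by
        rintro rfl
        simp at hn'
        exact hn hn'
      have hlt : n' < n := by
        have h2 := hq.two_le
        calc n' < 2 * n' := by omega
          _ ≤ n.minFac * n' := Nat.mul_le_mul_right _ h2
          _ = n := hn'.symm
      obtain ⟨k, hk⟩ := ih n' hlt hn0 (fun p hpp hpn => hp p hpp (by
        rw [hn']; exact hpn.mul_left _))
      refine ⟨k + 1, ?_⟩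
      rw [hn', pow_succ, mul_comm (n.minFac)]
      exact mul_dvd_mul hk (hp _ hq (Nat.minFac_dvd n))

/-- Main theorem under openness of the units. -/
theorem main_of_unitsOpen (K : Type*) [Field K] [NumberField K] (hK : Module.finrank ℚ K = 3)
    (σ : Fin 3 → K →+* ℝ) (hσ : Function.Injective σ) (S : Finset ℕ) (hS : ∀ p ∈ S, p.Prime)
    (hU : UnitsOpen (𝓞 K) (∏ p ∈ S, (p : ℤ))) (ε : ℝ) (hε : 0 < ε) :
    {m : ℝ | ∃ α : Fin 3 → K, LinearIndependent ℚ α ∧ (∃ n : ℕ, IsSNumber S n ∧ StableUnder K α n) ∧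
      m = markovMin (fun i j => σ i (α j)) ∧ ε ≤ m}.Finite := by
  obtain ⟨L, hL0, hL⟩ := exists_reduction K
  have hP0 : (∏ p ∈ S, (p : ℤ)) ≠ 0 :=
    Finset.prod_ne_zero_iff.mpr fun p hp => by exact_mod_cast (hS p hp).ne_zero
  have hC : ∀ I : Ideal (𝓞 K), I ∈ L → ∃ C : ℤ, ∀ M : AddSubgroup (𝓞 K),
      Ideal.span (M : Set (𝓞 K)) = I →
      (∃ k : ℕ, ∀ y ∈ I, (((∏ p ∈ S, (p : ℤ)) : ℤ) : 𝓞 K) ^ k * y ∈ M) →
      ∃ x ∈ M, x ≠ 0 ∧ |Algebra.norm ℤ x| ≤ C :=
    fun I hI => exists_small K _ hP0 hU I (hL0 I hI)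
  choose! C hC using hC
  refine Set.Finite.subset (Set.Finite.biUnion (Finset.finite_toSet L)
    (fun I hI => finite_values K hK σ hσ I (hL0 I hI) (C I) ε hε)) ?_
  rintro m ⟨α, hα, ⟨n, ⟨hn0, hnS⟩, hst⟩, hm, hεm⟩
  obtain ⟨I, hI, lam, α', hlam, hα', hspan, hclo⟩ := hL α n hα hst
  refine Set.mem_biUnion (x := I) hI ?_
  have hsp : Ideal.span ((AddSubgroup.closure (Set.range α') : AddSubgroup (𝓞 K)) : Set (𝓞 K)) = I := by
    apply le_antisymm
    · rw [Ideal.span_le]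
      intro x hx
      have h1 : AddSubgroup.closure (Set.range α') ≤ I.toAddSubgroup := by
        rw [AddSubgroup.closure_le]
        intro y hy
        have : y ∈ Ideal.span (Set.range α') := Ideal.subset_span hy
        rw [hspan] at this
        exact this
      exact h1 hx
    · rw [← hspan]
      exact Ideal.span_mono AddSubgroup.subset_closure
  refine ⟨α', ?_, ?_, ?_, hεm⟩
  · intro j
    rw [← hspan]
    exact Ideal.subset_span ⟨j, rfl⟩
  · refine hC I hI _ hsp ?_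
    obtain ⟨k, hk⟩ := dvd_pow_of_primes (∏ p ∈ S, p) n hn0 (fun p hp hpn =>
      Finset.dvd_prod_of_mem (fun p : ℕ => p) (hnS p hp hpn))
    refine ⟨k, fun y hy => ?_⟩
    obtain ⟨q, hq⟩ := hk
    have h1 : (((∏ p ∈ S, (p : ℤ)) : ℤ) : 𝓞 K) ^ k = (q : 𝓞 K) * (n : 𝓞 K) := by
      have h2 : ((∏ p ∈ S, p : ℕ) : 𝓞 K) ^ k = (n : 𝓞 K) * (q : 𝓞 K) := by exact_mod_cast congrArg (fun z : ℕ => (z : 𝓞 K)) hq
      rw [mul_comm, ← h2]
      push_cast
      rfl
    rw [h1, mul_assoc, ← nsmul_eq_mul]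
    exact AddSubgroup.nsmul_mem _ (hclo y hy) q
  · rw [hm, ← markovMin_scale (fun i j => σ i (α j)) (fun i => σ i lam)
      (fun i => (map_ne_zero (σ i)).mpr hlam)]
    congr 1
    funext i j
    rw [hα' j, map_mul]

end Pool.Agent.MP_ca7d12_nt
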