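import Pool.Agent.Lib.MP_ca7d12_nt.Defs

set_option autoImplicit false

namespace Pool.Agent.MP_ca7d12_nt

open NumberField

/-- The product of the three real embeddings is the norm. -/
theorem prod_embeddings (K : Type*) [Field K] [NumberField K] (hK : Module.finrank ℚ K = 3)
    (σ : Fin 3 → K →+* ℝ) (hσ : Function.Injective σ) (y : 𝓞 K) :
    ∏ i : Fin 3, σ i (y : K) = ((Algebra.norm ℤ y : ℤ) : ℝ) := by
  classical
  have hinj : Function.Injective
      (fun i : Fin 3 => (((Complex.ofRealHom).comp (σ i)).toRatAlgHom : K →ₐ[ℚ] ℂ)) := by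
    intro i j hij
    apply hσ
    ext x
    have h1 := congrArg (fun f : K →ₐ[ℚ] ℂ => f x) hij
    simpa using h1
  have hcard : Fintype.card (Fin 3) = Fintype.card (K →ₐ[ℚ] ℂ) := by
    rw [AlgHom.card ℚ K ℂ, hK, Fintype.card_fin]
  have hbij : Function.Bijective
      (fun i : Fin 3 => (((Complex.ofRealHom).comp (σ i)).toRatAlgHom : K →ₐ[ℚ] ℂ)) :=
    (Fintype.bijective_iff_injective_and_card _).2 ⟨hinj, hcard⟩
  have hn := Algebra.norm_eq_prod_embeddings ℚ (L := K) ℂ (y : K)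
  have h2 : ∏ τ : K →ₐ[ℚ] ℂ, τ (y : K) = ∏ i : Fin 3, ((σ i (y : K) : ℝ) : ℂ) :=
    (Function.Bijective.prod_comp hbij (fun τ : K →ₐ[ℚ] ℂ => τ (y : K))).symm.trans (by simp)
  rw [h2] at hn
  have h3 : (Algebra.norm ℚ (y : K) : ℚ) = ((Algebra.norm ℤ y : ℤ) : ℚ) :=
    (Algebra.coe_norm_int y).symm
  rw [h3] at hn
  have h4 : (((Algebra.norm ℤ y : ℤ) : ℝ) : ℂ) = ((∏ i : Fin 3, σ i (y : K) : ℝ) : ℂ) := by
    push_cast
    rw [← hn]
    simp
  exact (Complex.ofReal_injective h4).symm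

/-- Scaling the rows does not change `markovMin`. -/
theorem markovMin_scale (A : Matrix (Fin 3) (Fin 3) ℝ) (t : Fin 3 → ℝ) (ht : ∀ i, t i ≠ 0) :
    markovMin (fun i j => t i * A i j) = markovMin A := by
  have hdet : Matrix.det (fun i j => t i * A i j : Matrix (Fin 3) (Fin 3) ℝ) = (∏ i, t i) * A.det :=
    Matrix.det_mul_column t A
  have hT : (∏ i, t i) ≠ 0 := Finset.prod_ne_zero_iff.2 (fun i _ => ht i)
  have hval : ∀ x : Fin 3 → ℤ,
      (∏ i : Fin 3, ∑ j : Fin 3, (t i * A i j) * (x j : ℝ)) /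
          Matrix.det (fun i j => t i * A i j : Matrix (Fin 3) (Fin 3) ℝ)
        = (∏ i : Fin 3, ∑ j : Fin 3, A i j * (x j : ℝ)) / A.det := by
    intro x
    rw [hdet]
    have h1 : (∏ i : Fin 3, ∑ j : Fin 3, (t i * A i j) * (x j : ℝ))
        = (∏ i, t i) * ∏ i : Fin 3, ∑ j : Fin 3, A i j * (x j : ℝ) := by
      rw [← Finset.prod_mul_distrib]
      refine Finset.prod_congr rfl (fun i _ => ?_)
      rw [Finset.mul_sum]
      refine Finset.sum_congr rfl (fun j _ => ?_)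
      ring
    rw [h1, mul_div_mul_left _ _ hT]
  unfold markovMin
  congr 1
  ext r
  constructor
  · rintro ⟨x, hx, hr⟩
    refine ⟨x, hx, ?_⟩
    rw [hr]
    exact congrArg abs (hval x)
  · rintro ⟨x, hx, hr⟩
    refine ⟨x, hx, ?_⟩
    rw [hr]
    exact (congrArg abs (hval x)).symm

end Pool.Agent.MP_ca7d12_nt
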