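import Pool.Agent.Lib.MP_ca7d12_nt.Defs

set_option autoImplicit false

namespace Pool.Agent.MP_ca7d12_nt

namespace UnitsA

variable {R : Type*} [CommRing R]

/-- `x` is congruent modulo `n` to an integer times a unit. -/
def TT (n : ℤ) (x : R) : Prop :=
  ∃ (u : Rˣ) (c : ℤ) (w : R), x = (c : R) * (u : R) + (n : R) * w

theorem TT.mul {n : ℤ} {x y : R} (hx : TT n x) (hy : TT n y) : TT n (x * y) := by
  obtain ⟨u, c, w, rfl⟩ := hx
  obtain ⟨u', c', w', rfl⟩ := hy
  refine ⟨u * u', c * c', (c : R) * u * w' + w * (c' : R) * u' + (n : R) * w * w', ?_⟩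
  push_cast
  ring

theorem TT.congr {n : ℤ} {x y : R} (hx : TT n x) (h : ∃ w, y = x + (n : R) * w) : TT n y := by
  obtain ⟨u, c, w, rfl⟩ := hx
  obtain ⟨w', rfl⟩ := h
  exact ⟨u, c, w + w', by ring⟩

theorem TT.int (n c : ℤ) : TT n (c : R) := ⟨1, c, 0, by simp⟩

theorem coprime_of_unit (hR : ∀ q : ℤ, IsUnit (q : R) → IsUnit q) (c D : ℤ) (x w : R)
    (hx : IsUnit x) (h : ∃ y : R, x = (c : R) * y + (D : R) * w) : IsCoprime c D := by
  obtain ⟨y, hy⟩ := h
  rw [Int.isCoprime_iff_gcd_eq_one]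
  have h1 : ((Int.gcd c D : ℤ) : R) ∣ x := by
    rw [hy]
    refine dvd_add (Dvd.dvd.mul_right ?_ _) (Dvd.dvd.mul_right ?_ _)
    · exact Int.cast_dvd_cast _ _ (Int.gcd_dvd_left ..)
    · exact Int.cast_dvd_cast _ _ (Int.gcd_dvd_right ..)
  have h2 := hR _ (isUnit_of_dvd_unit h1 hx)
  have h3 := Int.isUnit_iff.mp h2
  omega

theorem cast_natAbs' (P : ℤ) : ((P.natAbs : ℕ) : R) = (P.sign : R) * (P : R) := by
  have hs : ((P.natAbs : ℕ) : ℤ) = P.sign * P := by
    rw [Int.natCast_natAbs, ← Int.sign_mul_self_eq_abs]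
  calc ((P.natAbs : ℕ) : R) = (((P.natAbs : ℕ) : ℤ) : R) := (Int.cast_natCast _).symm
    _ = (P.sign : R) * (P : R) := by rw [hs]; push_cast; rfl

theorem level (hR : ∀ q : ℤ, IsUnit (q : R) → IsUnit q)
    (P D : ℤ) (hP0 : P ≠ 0) (hPD : P ^ 2 ∣ D) (η : Rˣ) (c : ℤ) (v : R)
    (h : (η : R) = (c : R) + (D : R) * v) (k : ℕ) :
    ∃ (η' : Rˣ) (c' r : ℤ) (y : R),
      (η' : R) = (c' : R) + (D : R) * (P : R) ^ k * ((r : R) * v + (P : R) * y) ∧
      IsCoprime c' D ∧ IsCoprime r P := by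
  induction k with
  | zero =>
    refine ⟨η, c, 1, 0, by rw [h]; push_cast; ring, ?_, isCoprime_one_left⟩
    exact coprime_of_unit hR c D (η : R) v η.isUnit ⟨1, by rw [h]; ring⟩
  | succ k ih =>
    obtain ⟨η', c', r, y, h1, h2, h3⟩ := ih
    obtain ⟨D', hD'⟩ := hPD
    set Y : R := (r : R) * v + (P : R) * y with hY
    obtain ⟨e, he⟩ := Polynomial.powAddExpansion (c' : R) ((D : R) * (P : R) ^ k * Y) P.natAbs
    have hs' : ((P.natAbs : ℕ) : R) = (P.sign : R) * (P : R) := cast_natAbs' P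
    have hcP : IsCoprime c' P := h2.of_isCoprime_of_dvd_right
      (Dvd.dvd.trans (dvd_pow_self P two_ne_zero) ⟨D', hD'⟩)
    refine ⟨η' ^ P.natAbs, c' ^ P.natAbs, P.sign * c' ^ (P.natAbs - 1) * r,
      (P.sign : R) * (c' : R) ^ (P.natAbs - 1) * y + e * (D' : R) * (P : R) ^ k * Y ^ 2, ?_, ?_, ?_⟩
    · rw [Units.val_pow_eq_pow_val, h1, he, hs', hD']
      push_cast
      rw [hY]
      ring
    · exact h2.pow_left
    · have h4 : IsUnit P.sign := by
        rcases lt_trichotomy P 0 with h | h | h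
        · rw [Int.sign_eq_neg_one_of_neg h]; exact isUnit_one.neg
        · exact absurd h hP0
        · rw [Int.sign_eq_one_of_pos h]; exact isUnit_one
      refine IsCoprime.mul_left (IsCoprime.mul_left ?_ (hcP.pow_left)) h3
      obtain ⟨b, hb⟩ := h4.exists_left_inv
      exact ⟨b, 0, by rw [hb]; ring⟩

theorem lin (hR : ∀ q : ℤ, IsUnit (q : R) → IsUnit q)
    (P D : ℤ) (hP0 : P ≠ 0) (hPD : P ^ 2 ∣ D) (η : Rˣ) (c : ℤ) (v : R)
    (h : (η : R) = (c : R) + (D : R) * v) (k : ℕ) (a : ℤ) :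
    TT (D * P ^ (k + 1)) (1 + (D : R) * (P : R) ^ k * ((a : R) * v)) := by
  obtain ⟨η', c', r, y, h1, h2, h3⟩ := level hR P D hP0 hPD η c v h k
  have hPD' : P ∣ D := Dvd.dvd.trans (dvd_pow_self P two_ne_zero) hPD
  have hcP : IsCoprime c' P := h2.of_isCoprime_of_dvd_right hPD'
  obtain ⟨cb, e, hce⟩ : IsCoprime c' (D * P ^ (k + 1)) := h2.mul_right hcP.pow_right
  -- `cb * c' + e * (D * P ^ (k+1)) = 1`
  have hcbP : IsCoprime cb P := by
    refine ⟨c', e * D * P ^ k, ?_⟩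
    rw [← hce]; ring
  have hcr : IsCoprime (cb * r) P := hcbP.mul_left h3
  obtain ⟨s, b, hsb⟩ := hcr
  -- `s * (cb * r) + b * P = 1`
  -- natural exponent
  obtain ⟨t, m, htm⟩ : ∃ (t : ℕ) (m : ℤ), (t : ℤ) = a * s + P * m := by
    refine ⟨(a * s % P).toNat, -(a * s / P), ?_⟩
    rw [Int.toNat_of_nonneg (Int.emod_nonneg _ hP0)]
    have := Int.emod_add_mul_ediv (a * s) P
    linarith
  set X : R := (D : R) * (P : R) ^ k * ((cb : R) * (r : R) * v) +
    (D : R) * (P : R) ^ (k + 1) * ((cb : R) * y - (e : R)) with hX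
  have h5 : (cb : R) * (η' : R) = 1 + X := by
    have h6 : (cb : R) * (c' : R) = 1 - (e : R) * ((D : R) * (P : R) ^ (k + 1)) := by
      have := congrArg (fun z : ℤ => (z : R)) hce
      push_cast at this
      linear_combination this
    rw [h1, mul_add, h6, hX]
    ring
  obtain ⟨q, hq⟩ := Polynomial.powAddExpansion (1 : R) X t
  obtain ⟨D', hD'⟩ := hPD'
  have h7 : TT (D * P ^ (k + 1)) (((cb : R) * (η' : R)) ^ t) := by
    refine ⟨η' ^ t, cb ^ t, 0, ?_⟩
    push_cast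
    ring
  refine h7.congr ?_
  rw [h5, hq, one_pow, one_pow, mul_one]
  -- `1 + D P^k a v = 1 + t X + q X^2 + D P^{k+1} w`
  have ht : (t : R) = (a : R) * (s : R) + (P : R) * (m : R) := by
    have := congrArg (fun z : ℤ => (z : R)) htm
    simpa using this
  have hsb' : (s : R) * ((cb : R) * (r : R)) = 1 - (b : R) * (P : R) := by
    have := congrArg (fun z : ℤ => (z : R)) hsb
    push_cast at this
    linear_combination this
  set Z : R := (cb : R) * (r : R) * v + (P : R) * ((cb : R) * y - (e : R)) with hZ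
  have hXZ : X = (D : R) * (P : R) ^ k * Z := by rw [hX, hZ]; ring
  refine ⟨(a : R) * (b : R) * v - (m : R) * ((cb : R) * (r : R) * v) -
    (t : R) * ((cb : R) * y - (e : R)) - q * (D' : R) * (P : R) ^ k * Z ^ 2, ?_⟩
  have h8 : (t : R) * X = (D : R) * (P : R) ^ k * ((a : R) * ((s : R) * ((cb : R) * (r : R))) * v) +
      (D : R) * (P : R) ^ (k + 1) * ((m : R) * ((cb : R) * (r : R) * v) +
        (t : R) * ((cb : R) * y - (e : R))) := by
    rw [hX, ht]; ring
  have h9 : q * X ^ 2 = (D : R) * (P : R) ^ (k + 1) * (q * (D' : R) * (P : R) ^ k * Z ^ 2) := by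
    rw [hXZ, hD']; push_cast; ring
  rw [h8, h9, hsb']
  push_cast
  ring

end UnitsA

open UnitsA in
/-- From two units of exact level `D` with spanning directions to openness of the units. -/
theorem unitsOpen_of_two {R : Type*} [CommRing R]
    (hR : ∀ q : ℤ, IsUnit (q : R) → IsUnit q)
    (P D : ℤ) (hP : P ≠ 0) (hD : D ≠ 0) (hPD : P ^ 2 ∣ D)
    (η₁ η₂ : Rˣ) (c₁ c₂ : ℤ) (v₁ v₂ : R)
    (h₁ : (η₁ : R) = (c₁ : R) + (D : R) * v₁)
    (h₂ : (η₂ : R) = (c₂ : R) + (D : R) * v₂)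
    (hspan : ∀ z : R, ∃ (i a b : ℤ) (w : R),
      z = (i : R) + (a : R) * v₁ + (b : R) * v₂ + (P : R) * w) :
    UnitsOpen R P := by
  have hPD' : P ∣ D := Dvd.dvd.trans (dvd_pow_self P two_ne_zero) hPD
  have step : ∀ (k : ℕ) (z : R), TT (D * P ^ (k + 1)) (1 + (D : R) * (P : R) ^ k * z) := by
    intro k z
    obtain ⟨i, a, b, w, hz⟩ := hspan z
    obtain ⟨D', hD'⟩ := hPD'
    have e0 : TT (D * P ^ (k + 1)) (1 + (D : R) * (P : R) ^ k * (i : R)) := by
      have := TT.int (R := R) (D * P ^ (k + 1)) (1 + D * P ^ k * i)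
      push_cast at this
      exact this
    have e1 := lin hR P D hP hPD η₁ c₁ v₁ h₁ k a
    have e2 := lin hR P D hP hPD η₂ c₂ v₂ h₂ k b
    refine ((e0.mul e1).mul e2).congr ?_
    refine ⟨w - (D' : R) * (P : R) ^ k * ((i : R) * ((a : R) * v₁) + (i : R) * ((b : R) * v₂) +
      ((a : R) * v₁) * ((b : R) * v₂) +
      (D : R) * (P : R) ^ k * ((i : R) * ((a : R) * v₁) * ((b : R) * v₂))), ?_⟩
    rw [hz, hD']
    push_cast
    ring
  have key : ∀ (k : ℕ) (z : R), TT (D * P ^ k) (1 + (D : R) * z) := by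
    intro k
    induction k with
    | zero =>
      intro z
      exact ⟨1, 1, z, by push_cast; simp⟩
    | succ k ih =>
      intro z
      obtain ⟨u, c, w, hx⟩ := ih z
      have hcD : IsCoprime c D := by
        refine coprime_of_unit hR c D (1 : R) ((P : R) ^ k * w - z) isUnit_one ⟨(u : R), ?_⟩
        push_cast at hx
        linear_combination hx
      have hcP : IsCoprime c P := hcD.of_isCoprime_of_dvd_right hPD'
      obtain ⟨cb, e, hce⟩ : IsCoprime c (D * P ^ (k + 1)) := hcD.mul_right hcP.pow_right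
      have hce' : (cb : R) * (c : R) + (e : R) * ((D : R) * (P : R) ^ (k + 1)) = 1 := by
        have := congrArg (fun z : ℤ => (z : R)) hce
        push_cast at this
        exact this
      obtain ⟨u', c', w', hx'⟩ := step k ((cb : R) * ((u⁻¹ : Rˣ) : R) * w - (e : R) * (P : R))
      have huu : (u : R) * ((u⁻¹ : Rˣ) : R) = 1 := Units.mul_inv u
      refine ⟨u * u', c * c', (c : R) * (u : R) * w' + (e : R) * (1 + (D : R) * z), ?_⟩
      push_cast at hx hx' ⊢
      -- `x' = cb * u⁻¹ * x`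
      have h6 : 1 + (D : R) * (P : R) ^ k * ((cb : R) * ((u⁻¹ : Rˣ) : R) * w - (e : R) * (P : R)) =
          (cb : R) * ((u⁻¹ : Rˣ) : R) * (1 + (D : R) * z) := by
        rw [hx]
        linear_combination (-1 : R) * hce' - (cb : R) * (c : R) * huu
      have h7 : (1 + (D : R) * z) = (c : R) * (u : R) *
          ((cb : R) * ((u⁻¹ : Rˣ) : R) * (1 + (D : R) * z)) +
          (e : R) * ((D : R) * (P : R) ^ (k + 1)) * (1 + (D : R) * z) := by
        linear_combination (-(1 + (D : R) * z)) * hce' -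
          (cb : R) * (c : R) * (1 + (D : R) * z) * huu
      rw [← h6, hx'] at h7
      linear_combination h7
  refine ⟨D, hD, fun k z => ?_⟩
  obtain ⟨u, c, w, hx⟩ := key k z
  refine ⟨u, c, (D : R) * w, ?_⟩
  rw [hx]
  push_cast
  ring

end Pool.Agent.MP_ca7d12_nt
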