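import Pool.Agent.Lib.MP_ca7d12_nt.Defs

set_option autoImplicit false

namespace Pool.Agent.MP_ca7d12_nt

open NumberField

/-- Consequence of avoidance: `P ^ h * I ⊆ g 𝓞 + P ^ k * I` for all `k`. -/
theorem mem_of_avoid (K : Type*) [Field K] [NumberField K] (P : ℤ) (hP : P ≠ 0) (h : ℕ)
    (I : Ideal (𝓞 K)) (hI : I ≠ ⊥) (g : 𝓞 K) (hg : g ∈ I)
    (hav : ∀ Q : Ideal (𝓞 K), Q.IsPrime → (P : 𝓞 K) ∈ Q → g ∉ Q ^ h * I)
    (k : ℕ) (y : 𝓞 K) (hy : y ∈ I) :
    ∃ (z : 𝓞 K) (y' : 𝓞 K), y' ∈ I ∧ (P : 𝓞 K) ^ h * y = g * z + (P : 𝓞 K) ^ k * y' := by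
  classical
  have hPK : (P : 𝓞 K) ≠ 0 := Int.cast_ne_zero.2 hP
  have hI0 : I ≠ 0 := hI
  have hsp : Ideal.span {(P : 𝓞 K)} ≠ 0 := by
    rw [Ne, Ideal.zero_eq_bot, Ideal.span_singleton_eq_bot]
    exact hPK
  set a : Ideal (𝓞 K) := Ideal.span {g} ⊔ Ideal.span {(P : 𝓞 K) ^ k} * I with ha
  have haI : a ≤ I := sup_le ((Ideal.span_singleton_le_iff_mem I).2 hg) Ideal.mul_le_right
  obtain ⟨b, hb⟩ := Ideal.dvd_iff_le.2 haI
  have hbk : b ∣ Ideal.span {(P : 𝓞 K)} ^ k := by
    have h1 : a ∣ Ideal.span {(P : 𝓞 K) ^ k} * I := Ideal.dvd_iff_le.2 le_sup_right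
    rw [hb, mul_comm (Ideal.span _) I, mul_dvd_mul_iff_left hI0] at h1
    rwa [Ideal.span_singleton_pow]
  have hb0 : b ≠ 0 := by
    rintro rfl
    exact pow_ne_zero k hsp (zero_dvd_iff.1 hbk)
  have hbh : b ∣ Ideal.span {(P : 𝓞 K)} ^ h := by
    rw [UniqueFactorizationMonoid.dvd_iff_normalizedFactors_le_normalizedFactors hb0
      (pow_ne_zero h hsp), UniqueFactorizationMonoid.normalizedFactors_pow, Multiset.le_iff_count]
    intro Q
    rw [Multiset.count_nsmul]
    by_cases hQ : Q ∈ UniqueFactorizationMonoid.normalizedFactors b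
    · have hQp : Prime Q := UniqueFactorizationMonoid.prime_of_normalized_factor Q hQ
      have hQb : Q ∣ b := UniqueFactorizationMonoid.dvd_of_mem_normalizedFactors hQ
      have hQP : Q ∣ Ideal.span {(P : 𝓞 K)} := hQp.dvd_of_dvd_pow (hQb.trans hbk)
      have hmem : (P : 𝓞 K) ∈ Q := Ideal.dvd_span_singleton.1 hQP
      have hlt : Multiset.count Q (UniqueFactorizationMonoid.normalizedFactors b) < h := by
        by_contra hcon
        push Not at hcon
        have h2 : Q ^ h ∣ b := by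
          rw [UniqueFactorizationMonoid.dvd_iff_normalizedFactors_le_normalizedFactors
            (pow_ne_zero h hQp.ne_zero) hb0, UniqueFactorizationMonoid.normalizedFactors_pow,
            UniqueFactorizationMonoid.normalizedFactors_irreducible hQp.irreducible,
            normalize_eq, Multiset.nsmul_singleton]
          exact Multiset.le_count_iff_replicate_le.1 hcon
        have h3 : a ≤ Q ^ h * I := by
          rw [← Ideal.dvd_iff_le, hb, mul_comm I b]
          exact mul_dvd_mul_right h2 I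
        exact hav Q (Ideal.isPrime_of_prime hQp) hmem
          (h3 (Ideal.mem_sup_left (Ideal.mem_span_singleton_self g)))
      have h4 : 1 ≤ Multiset.count Q
          (UniqueFactorizationMonoid.normalizedFactors (Ideal.span {(P : 𝓞 K)})) := by
        rw [Multiset.one_le_count_iff_mem]
        obtain ⟨q, hq, hqa⟩ := UniqueFactorizationMonoid.exists_mem_normalizedFactors_of_dvd hsp
          hQp.irreducible hQP
        rwa [associated_iff_eq.1 hqa]
      exact hlt.le.trans (Nat.le_mul_of_pos_right h h4)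
    · rw [Multiset.count_eq_zero_of_notMem hQ]
      exact Nat.zero_le _
  have hPb : (P : 𝓞 K) ^ h ∈ b := by
    have h5 := Ideal.dvd_iff_le.1 hbh
    exact h5 (Ideal.pow_mem_pow (Ideal.mem_span_singleton_self _) h)
  have hya : (P : 𝓞 K) ^ h * y ∈ a := by
    rw [hb, mul_comm I b]
    exact Ideal.mul_mem_mul hPb hy
  obtain ⟨u, hu, w, hw, huw⟩ := Submodule.mem_sup.1 hya
  obtain ⟨z, hz⟩ := Ideal.mem_span_singleton'.1 hu
  obtain ⟨y', hy', hyw⟩ := Ideal.mem_span_singleton_mul.1 hw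
  exact ⟨z, y', hy', by rw [← huw, ← hz, ← hyw, mul_comm z g]⟩

end Pool.Agent.MP_ca7d12_nt
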