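import Pool.Agent.Lib.MP_ca7d12_nt.Avoid
import Pool.Agent.Lib.MP_ca7d12_nt.MemOfAvoid
import Pool.Agent.Lib.MP_ca7d12_nt.BoundedReps

set_option autoImplicit false

namespace Pool.Agent.MP_ca7d12_nt

open NumberField

/-- Key lemma: a subgroup `M` generating `I` and containing `P ^ k * I` has a nonzero element of
bounded norm. -/
theorem exists_small (K : Type*) [Field K] [NumberField K] (P : ℤ) (hP : P ≠ 0)
    (hU : UnitsOpen (𝓞 K) P) (I : Ideal (𝓞 K)) (hI : I ≠ ⊥) :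
    ∃ C : ℤ, ∀ M : AddSubgroup (𝓞 K), Ideal.span (M : Set (𝓞 K)) = I →
      (∃ k : ℕ, ∀ y ∈ I, (P : 𝓞 K) ^ k * y ∈ M) →
      ∃ x ∈ M, x ≠ 0 ∧ |Algebra.norm ℤ x| ≤ C := by
  obtain ⟨D, hD, hU⟩ := hU
  obtain ⟨h, hav⟩ := exists_avoid K P hP
  have hP' : (P : 𝓞 K) ≠ 0 := by exact_mod_cast hP
  have hD' : (D : 𝓞 K) ≠ 0 := by exact_mod_cast hD
  set T : Ideal (𝓞 K) := Ideal.span {(D : 𝓞 K) * (P : 𝓞 K) ^ h} * I with hT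
  have hT0 : T ≠ ⊥ := by
    rw [hT]
    refine mul_ne_zero ?_ hI
    rw [Ne, Ideal.zero_eq_bot, Ideal.span_singleton_eq_bot]
    exact mul_ne_zero hD' (pow_ne_zero _ hP')
  obtain ⟨C, hC⟩ := exists_bounded_reps K T hT0
  refine ⟨C, fun M hM ⟨k, hk⟩ => ?_⟩
  obtain ⟨g, hgM, hg⟩ := hav I hI M hM
  have hgI : g ∈ I := by rw [← hM]; exact Ideal.subset_span hgM
  obtain ⟨x, hx0, hxg, hxC⟩ := hC g
  rw [hT, Ideal.mem_span_singleton_mul] at hxg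
  obtain ⟨y, hy, hxy⟩ := hxg
  obtain ⟨z, y', hy', hzy⟩ := mem_of_avoid K P hP h I hI g hgI hg k y hy
  obtain ⟨u, c, w, hu⟩ := hU k z
  have huu : ((u⁻¹ : (𝓞 K)ˣ) : 𝓞 K) * (u : 𝓞 K) = 1 := Units.inv_mul u
  refine ⟨((u⁻¹ : (𝓞 K)ˣ) : 𝓞 K) * x, ?_, ?_, ?_⟩
  · have h1 : ((u⁻¹ : (𝓞 K)ˣ) : 𝓞 K) * x = c • g +
        (P : 𝓞 K) ^ k * (((u⁻¹ : (𝓞 K)ˣ) : 𝓞 K) * (g * w + (D : 𝓞 K) * y')) := by
      have h2 : x = (c : 𝓞 K) * g * (u : 𝓞 K) + (P : 𝓞 K) ^ k * (g * w + (D : 𝓞 K) * y') := by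
        push_cast at hu
        linear_combination (-1 : 𝓞 K) * hxy + (D : 𝓞 K) * hzy + g * hu
      rw [h2, zsmul_eq_mul]
      linear_combination (c : 𝓞 K) * g * huu
    rw [h1]
    refine M.add_mem (M.zsmul_mem hgM c) (hk _ ?_)
    refine Ideal.mul_mem_left _ _ (Ideal.add_mem _ (Ideal.mul_mem_right _ _ hgI)
      (Ideal.mul_mem_left _ _ hy'))
  · exact mul_ne_zero (Units.ne_zero _) hx0
  · rw [map_mul, abs_mul]
    have h1 : IsUnit (Algebra.norm ℤ ((u⁻¹ : (𝓞 K)ˣ) : 𝓞 K)) := (Units.isUnit _).map _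
    rw [Int.isUnit_iff_abs_eq.mp h1, one_mul]
    exact hxC

end Pool.Agent.MP_ca7d12_nt
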